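import Pool.Agent.Lib.H5GT.B1

/-! # H5GT B2: the rank function separates -/

set_option autoImplicit false

namespace H5GT

private theorem h5gtb2_aux {n : ℕ} (χ : Fin n → Fin n → Fin n → Prop)
    (X : Fin n → Fin n → Fin n → Fin n → Bool)
    (symm1 : ∀ a b c d, X a b c d = X b a c d) (symm2 : ∀ a b c d, X a b c d = X c d a b)
    (one : ∀ a b c d, X a b c d = true → X a c b d = false)
    (c1 : ∀ i j k l, i < j → j < k → k < l → (χ i j k ↔ χ j k l) → X i l j k = true)
    (c2 : ∀ i j k l, i < j → j < k → k < l → ¬ (χ i j k ↔ χ j k l) → X i j k l = true)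
    (a b c d : Fin n) (hab : a < b) (hcd : c < d) (hac : a ≠ c) (had : a ≠ d) (hbc : b ≠ c) (hbd : b ≠ d)
    (nca : ¬ Below χ c a) (ncb : ¬ Below χ c b) (nda : ¬ Below χ d a) (ndb : ¬ Below χ d b) :
    X a b c d = false := by
  have s3 : ∀ a b c d, X a b c d = X a b d c := fun a b c d => by
    rw [symm2 a b c d, symm1 c d a b, symm2 d c a b]
  have up : ∀ {x y : Fin n}, ¬ Below χ y x → ∀ m, x < m → m < y → ¬ χ x m y := fun h m h1 h2 h3 =>
    h (Or.inr ⟨m, h1, h2, h3⟩)
  have dn : ∀ {x y : Fin n}, ¬ Below χ y x → ∀ m, y < m → m < x → χ y m x := fun h m h1 h2 => by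
    by_contra h3
    exact h (Or.inl ⟨m, h1, h2, h3⟩)
  rcases lt_or_gt_of_ne hac with h1 | h1
  · -- a < c
    rcases lt_or_gt_of_ne hbc with h2 | h2
    · -- a < b < c < d
      have e1 : ¬ χ a b c := up nca b hab h2
      have e2 : ¬ χ b c d := up ndb c h2 hcd
      have e := c1 a b c d hab h2 hcd (iff_of_false e1 e2)
      have e' := one _ _ _ _ e
      rw [s3]
      exact e'
    · -- a < c < b
      rcases lt_or_gt_of_ne hbd with h3 | h3
      · -- a < c < b < d
        by_cases h : χ a c b ↔ χ c b d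
        · have e := c1 a c b d h1 h2 h3 h
          rw [s3 a d c b] at e
          have e' := one _ _ _ _ e
          rw [s3]
          exact e'
        · exact one _ _ _ _ (c2 a c b d h1 h2 h3 h)
      · -- a < c < d < b
        have e1 : ¬ χ a c d := up nda c h1 hcd
        have e2 : χ c d b := dn ncb d hcd h3
        have e := c2 a c d b h1 hcd h3 (fun h => e1 (h.2 e2))
        rw [s3] at e
        exact one _ _ _ _ e
  · -- c < a
    rcases lt_or_gt_of_ne had with h2 | h2
    · -- c < a < d
      rcases lt_or_gt_of_ne hbd with h3 | h3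
      · -- c < a < b < d
        have e1 : χ c a b := dn ncb a h1 hab
        have e2 : ¬ χ a b d := up nda b hab h3
        have e := c2 c a b d h1 hab h3 (fun h => e2 (h.1 e1))
        rw [s3] at e
        rw [symm2]
        exact one _ _ _ _ e
      · -- c < a < d < b
        by_cases h : χ c a d ↔ χ a d b
        · have e := c1 c a d b h1 h2 h3 h
          rw [s3] at e
          have e' := one _ _ _ _ e
          rw [symm2, s3]
          exact e'
        · rw [symm2]
          exact one _ _ _ _ (c2 c a d b h1 h2 h3 h)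
    · -- c < d < a < b
      have e1 : χ c d a := dn nca d hcd h2
      have e2 : χ d a b := dn ndb a h2 hab
      have e := c1 c d a b hcd h2 hab (iff_of_true e1 e2)
      have e' := one _ _ _ _ e
      rw [symm2, s3]
      exact e'

/-- PROOF. Let `rk` be monotone along `Below χ`.  Let `p, p'` (ranks `< `) `q, q'` be four vertices,
`rk p < rk p' < rk q < rk q'`, and let `i < j < k < l` be the same four vertices in increasing order.
A vertex of `{q, q'}` is never below one of `{p, p'}`; for `x, y` with a vertex in between exactly one of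
`Below χ x y`, `Below χ y x` holds.
* `{p, p'} = {i, j}`: `Below i k` and `Below j l`: not `χ i j k`, not `χ j k l`; `{p, p'} = {k, l}`: `χ i j k`
  and `χ j k l`.  In both cases `c1` : `il` crosses `jk`, so `ij` does not cross `kl` (`one`).
* `{p, p'} = {i, l}`: not `χ i j k`, `χ j k l`; `{p, p'} = {j, k}`: `χ i j k`, not `χ j k l`.  By `c2` `ij` crosses `kl`, so
  `il` does not cross `jk`.
* `{p, p'} = {i, k}` or `{j, l}`: `c1` or `c2` applies, so `ik` does not cross `jl`. -/
theorem sep_of_signs {n : ℕ} (χ : Fin n → Fin n → Fin n → Prop)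
    (hi : ∀ i j k l, i < j → j < k → k < l → (χ i j l ↔ χ i k l))
    (X : Fin n → Fin n → Fin n → Fin n → Bool)
    (symm1 : ∀ a b c d, X a b c d = X b a c d) (symm2 : ∀ a b c d, X a b c d = X c d a b)
    (one : ∀ a b c d, X a b c d = true → X a c b d = false)
    (c1 : ∀ i j k l, i < j → j < k → k < l → (χ i j k ↔ χ j k l) → X i l j k = true)
    (c2 : ∀ i j k l, i < j → j < k → k < l → ¬ (χ i j k ↔ χ j k l) → X i j k l = true)
    (rk : Fin n → ℕ) (hrk : ∀ a b, Below χ a b → rk a < rk b) :
    ∀ a b c d, rk a < rk b → rk b < rk c → rk c < rk d → X a b c d = false := by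
  intro a b c d hab hbc hcd
  have nb : ∀ x y, rk x < rk y → ¬ Below χ y x := fun x y h h' => absurd (hrk _ _ h') (by omega)
  have ne : ∀ x y, rk x < rk y → x ≠ y := fun x y h h' => by rw [h'] at h; omega
  have s3 : ∀ a b c d, X a b c d = X a b d c := fun a b c d => by
    rw [symm2 a b c d, symm1 c d a b, symm2 d c a b]
  have key : ∀ a b c d : Fin n, a ≠ b → c ≠ d → rk a < rk c → rk a < rk d → rk b < rk c → rk b < rk d →
      X a b c d = false := by
    intro a b c d h1 h2 r1 r2 r3 r4
    rcases lt_or_gt_of_ne h1 with h3 | h3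
    · rcases lt_or_gt_of_ne h2 with h4 | h4
      · exact h5gtb2_aux χ X symm1 symm2 one c1 c2 a b c d h3 h4 (ne _ _ r1) (ne _ _ r2) (ne _ _ r3)
          (ne _ _ r4) (nb _ _ r1) (nb _ _ r3) (nb _ _ r2) (nb _ _ r4)
      · rw [s3]
        exact h5gtb2_aux χ X symm1 symm2 one c1 c2 a b d c h3 h4 (ne _ _ r2) (ne _ _ r1) (ne _ _ r4)
          (ne _ _ r3) (nb _ _ r2) (nb _ _ r4) (nb _ _ r1) (nb _ _ r3)
    · rcases lt_or_gt_of_ne h2 with h4 | h4
      · rw [symm1]
        exact h5gtb2_aux χ X symm1 symm2 one c1 c2 b a c d h3 h4 (ne _ _ r3) (ne _ _ r4) (ne _ _ r1)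
          (ne _ _ r2) (nb _ _ r3) (nb _ _ r1) (nb _ _ r4) (nb _ _ r2)
      · rw [symm1, s3]
        exact h5gtb2_aux χ X symm1 symm2 one c1 c2 b a d c h3 h4 (ne _ _ r4) (ne _ _ r3) (ne _ _ r2)
          (ne _ _ r1) (nb _ _ r4) (nb _ _ r2) (nb _ _ r3) (nb _ _ r1)
  exact key a b c d (ne _ _ hab) (ne _ _ hcd) (by omega) (by omega) (by omega) (by omega)

end H5GT
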