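import Pool.Agent.Lib.H5GT.C0

/-! # H5GT C2: the sign of a triple, seen on the ray with angle `0` -/

set_option autoImplicit false

namespace H5GT

open Set

variable {n : ℕ} (S : Strands n)

private theorem c2_ij_jk {i j k : Fin n} (hij : i < j) (hjk : j < k) (h : S.chi i j k) :
    S.f j k (S.th i) < S.r i := by
  have e1 := S.th_mono hij
  have e2 := S.th_mono hjk
  have e3 := S.th_lt j
  have e4 := S.th_pos j
  have e5 := S.th_pos i
  have e6 := S.th_lt k
  have hne : ∀ x ∈ Icc (S.th k - S.T) (S.th i), S.f j k x ≠ S.f i j x := by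
    intro x hx hh
    have hx' := S.once i j j k hij hjk (fun hh => (ne_of_lt hij) (congrArg Prod.fst hh)) x
      ⟨by linarith [hx.1], hx.2⟩ (S.th j - S.T) ⟨le_refl _, by linarith⟩ x
      ⟨hx.1, by linarith [hx.2]⟩ (S.th j) ⟨by linarith, le_refl _⟩ (Or.inl rfl)
      (Or.inr (Or.inl (by ring))) hh.symm ((S.left i j hij).trans (S.right j k hjk).symm)
    linarith [hx.1]
  have hk := keep (f := S.f j k) (g := S.f i j) (a := S.th k - S.T) (b := S.th i) (by linarith)
    ((S.cont j k hjk).mono (Icc_subset_Icc (le_refl _) e1.le))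
    ((S.cont i j hij).mono (Icc_subset_Icc (by linarith) (le_refl _))) hne
  rw [S.left j k hjk, S.right i j hij] at hk
  exact hk.1 h

/-- `i < j < k`: if `chi i j k` then `f j k 0 < f i k 0 < f i j 0`.
Second inequality: `ij` and `ik` meet only in the vertex `i` (`x = th i`, `S.once i j i k`), so they keep
their order on `[th k - T, 0]` (`th k - T < 0 < th i`); at `th k - T`: `f i k = r k < f i j` by `chi`.
First inequality: `ik` and `jk` meet only in the vertex `k` (`x = th k - T`; `S.once i k j k`), so they
keep their order on `[0, th i]`; at `th i`: `f i k (th i) = r i = f i j (th i)`.  The edges `ij` and `jk`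
meet only in the vertex `j` (`x = th j - T`, `y = x + T`), so they keep their order on
`[th k - T, th i]`, and at `th k - T`: `f j k = r k < f i j`; hence `f j k (th i) < r i`. -/
theorem chi_zero {i j k : Fin n} (hij : i < j) (hjk : j < k) (h : S.chi i j k) :
    S.f j k 0 < S.f i k 0 ∧ S.f i k 0 < S.f i j 0 := by
  have hik : i < k := hij.trans hjk
  have e1 := S.th_mono hij
  have e2 := S.th_mono hjk
  have e3 := S.th_lt j
  have e4 := S.th_pos j
  have e5 := S.th_pos i
  have e6 := S.th_lt k
  have e7 := S.th_pos k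
  constructor
  · have hne : ∀ x ∈ Icc (0 : ℝ) (S.th i), S.f j k x ≠ S.f i k x := by
      intro x hx hh
      have hx' := S.once i k j k hik hjk (fun hh => (ne_of_lt hij) (congrArg Prod.fst hh)) x
        ⟨by linarith [hx.1], hx.2⟩ (S.th k - S.T) ⟨le_refl _, by linarith⟩ x
        ⟨by linarith [hx.1], by linarith [hx.2]⟩ (S.th k - S.T) ⟨le_refl _, by linarith⟩
        (Or.inl rfl) (Or.inl rfl) hh.symm ((S.left i k hik).trans (S.left j k hjk).symm)
      linarith [hx.1]
    have hk := keep (f := S.f j k) (g := S.f i k) (a := 0) (b := S.th i) e5.le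
      ((S.cont j k hjk).mono (Icc_subset_Icc (by linarith) e1.le))
      ((S.cont i k hik).mono (Icc_subset_Icc (by linarith) (le_refl _))) hne
    rw [S.right i k hik] at hk
    exact hk.2 (c2_ij_jk S hij hjk h)
  · have hne : ∀ x ∈ Icc (S.th k - S.T) (0 : ℝ), S.f i k x ≠ S.f i j x := by
      intro x hx hh
      have hx' := S.once i k i j hik hij (fun hh => (ne_of_gt hjk) (congrArg Prod.snd hh)) x
        ⟨hx.1, by linarith [hx.2]⟩ (S.th i) ⟨by linarith, le_refl _⟩ x
        ⟨by linarith [hx.1], by linarith [hx.2]⟩ (S.th i) ⟨by linarith, le_refl _⟩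
        (Or.inl rfl) (Or.inl rfl) hh ((S.right i k hik).trans (S.right i j hij).symm)
      linarith [hx.2]
    have hk := keep (f := S.f i k) (g := S.f i j) (a := S.th k - S.T) (b := 0) (by linarith)
      ((S.cont i k hik).mono (Icc_subset_Icc (le_refl _) e5.le))
      ((S.cont i j hij).mono (Icc_subset_Icc (by linarith) e5.le)) hne
    rw [S.left i k hik] at hk
    exact hk.1 h

end H5GT
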