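import Pool.Agent.Lib.H5GT.C0

/-! # H5GT C2b: the sign of a triple, seen on the ray with angle `0`, second case -/

set_option autoImplicit false

namespace H5GT

open Set

variable {n : ℕ} (S : Strands n)

/-- `i < j < k`: if not `chi i j k` then `f i j 0 < f i k 0 < f j k 0`. Same proof as in `C2` with the
order reversed; `f i j (th k - T) ≠ r k` since otherwise `ij` and `ik` meet at `x = th k - T` and at
`x = th i` (`S.once i j i k`). -/
theorem not_chi_zero {i j k : Fin n} (hij : i < j) (hjk : j < k) (h : ¬ S.chi i j k) :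
    S.f i j 0 < S.f i k 0 ∧ S.f i k 0 < S.f j k 0 := by
  have hik : i < k := hij.trans hjk
  have t1 : S.th i < S.th j := S.th_mono hij
  have t2 : S.th j < S.th k := S.th_mono hjk
  have t3 : 0 < S.th i := S.th_pos i
  have t4 : S.th k < S.T := S.th_lt k
  have hchi : S.f i j (S.th k - S.T) ≤ S.r k := not_lt.1 h
  have n1 : (i, j) ≠ (i, k) := fun e => hjk.ne (Prod.ext_iff.1 e).2
  have n2 : (i, k) ≠ (j, k) := fun e => hij.ne (Prod.ext_iff.1 e).1
  have n3 : (i, j) ≠ (j, k) := fun e => hij.ne (Prod.ext_iff.1 e).1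
  -- the edges `ij` and `ik` meet only in the vertex `i`
  have a1 : ∀ x, S.th k - S.T ≤ x → x < S.th i → S.f i j x ≠ S.f i k x := by
    intro x hx1 hx2 he
    have h1 := S.once i j i k hij hik n1 x ⟨by linarith, hx2.le⟩ (S.th i) ⟨by linarith, le_rfl⟩
      x ⟨hx1, hx2.le⟩ (S.th i) ⟨by linarith, le_rfl⟩ (Or.inl rfl) (Or.inl rfl) he
      (by rw [S.right i j hij, S.right i k hik])
    exact hx2.ne h1
  -- the edges `ik` and `jk` meet only in the vertex `k`
  have a2 : ∀ x, S.th k - S.T < x → x ≤ S.th i → S.f i k x ≠ S.f j k x := by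
    intro x hx1 hx2 he
    have h1 := S.once i k j k hik hjk n2 x ⟨hx1.le, hx2⟩ (S.th k - S.T) ⟨le_rfl, by linarith⟩
      x ⟨hx1.le, by linarith⟩ (S.th k - S.T) ⟨le_rfl, by linarith⟩ (Or.inl rfl) (Or.inl rfl) he
      (by rw [S.left i k hik, S.left j k hjk])
    exact hx1.ne' h1
  -- the edges `ij` and `jk` meet only in the vertex `j`
  have a3 : ∀ x, S.th k - S.T ≤ x → x ≤ S.th i → S.f i j x ≠ S.f j k x := by
    intro x hx1 hx2 he
    have h1 := S.once i j j k hij hjk n3 x ⟨by linarith, hx2⟩ (S.th j - S.T) ⟨le_rfl, by linarith⟩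
      x ⟨hx1, by linarith⟩ (S.th j) ⟨by linarith, le_rfl⟩ (Or.inl rfl) (Or.inr (Or.inl (by ring))) he
      (by rw [S.left i j hij, S.right j k hjk])
    linarith
  have hlt : S.f i j (S.th k - S.T) < S.r k := by
    refine lt_of_le_of_ne hchi fun he => a1 (S.th k - S.T) le_rfl (by linarith) ?_
    rw [he, S.left i k hik]
  constructor
  · have h1 := keep (f := S.f i j) (g := S.f i k) (a := S.th k - S.T) (b := 0) (by linarith)
      ((S.cont i j hij).mono (Icc_subset_Icc (by linarith) (by linarith)))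
      ((S.cont i k hik).mono (Icc_subset_Icc le_rfl (by linarith)))
      (fun x hx => a1 x hx.1 (by linarith [hx.2]))
    rw [S.left i k hik] at h1
    exact h1.1 hlt
  · have h1 := keep (f := S.f i j) (g := S.f j k) (a := S.th k - S.T) (b := S.th i) (by linarith)
      ((S.cont i j hij).mono (Icc_subset_Icc (by linarith) le_rfl))
      ((S.cont j k hjk).mono (Icc_subset_Icc le_rfl (by linarith)))
      (fun x hx => a3 x hx.1 hx.2)
    rw [S.left j k hjk, S.right i j hij] at h1
    have h2 := h1.1 hlt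
    have h3 := keep (f := S.f i k) (g := S.f j k) (a := 0) (b := S.th i) (by linarith)
      ((S.cont i k hik).mono (Icc_subset_Icc (by linarith) le_rfl))
      ((S.cont j k hjk).mono (Icc_subset_Icc (by linarith) (by linarith)))
      (fun x hx => a2 x (by linarith [hx.1]) hx.2)
    rw [S.right i k hik] at h3
    exact h3.2 h2

end H5GT
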