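import Pool.Agent.Lib.H5GT.C1
import Pool.Agent.Lib.H5GT.C2
import Pool.Agent.Lib.H5GT.C2b

/-! # H5GT C3: the sign of `i j l` does not depend on `j` -/

set_option autoImplicit false

namespace H5GT

open Set

variable {n : ℕ} (S : Strands n)

/-- `1 < 2 < 3 < 4`: not (`chi 1 2 4` and not `chi 1 3 4`).  From `chi_zero`, `not_chi_zero` for `124`, `134`:
`f 1 4 0 < f 1 2 0`, `f 1 3 0 < f 1 4 0`, so `f 1 3 0 < f 1 2 0`, so `chi 1 2 3`; `f 2 4 0 < f 1 4 0 < f 3 4 0`,
so not `chi 2 3 4`.  The edges `12` and `34` meet at some `x` in `[th 4 - T, th 1]` (`y = x`): at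
`th 4 - T`: `f 3 4 = r 4 < f 1 2` by `chi 1 2 4`; at `th 1`: `f 1 2 = r 1 < f 3 4` by `not_chi_right` for
`134`; `ivt`.  They also meet at some `x'` in `[th 2 - T, th 3 - T]` (`y' = x' + T` in `[th 2, th 3]`): at
`th 2 - T`: `f 1 2 = r 2 < f 3 4 (th 2)` by `not_chi_right` for `234`; at `th 3 - T`: `f 3 4 (th 3) = r 3 < f 1 2`
by `chi 1 2 3`; `ivt` for `f 1 2` and `fun x => f 3 4 (x + T)`.  As `x' ≤ th 3 - T < th 4 - T ≤ x`, this
contradicts `S.once`. -/
theorem indep1 {i j k l : Fin n} (hij : i < j) (hjk : j < k) (hkl : k < l) (h : S.chi i j l)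
    (h' : ¬ S.chi i k l) : False := by
  have hik : i < k := hij.trans hjk
  have hjl : j < l := hjk.trans hkl
  have hil : i < l := hik.trans hkl
  obtain ⟨a1, a2⟩ := chi_zero S hij hjl h
  obtain ⟨b1, b2⟩ := not_chi_zero S hik hkl h'
  have hc1 : S.chi i j k := by
    by_contra hcon
    have := (not_chi_zero S hij hjk hcon).1
    linarith
  have hc2 : ¬ S.chi j k l := by
    intro hcon
    obtain ⟨c1, c2⟩ := chi_zero S hjk hkl hcon
    linarith
  have tij := S.th_mono hij
  have tjk := S.th_mono hjk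
  have tkl := S.th_mono hkl
  have pi := S.th_pos i
  have pj := S.th_pos j
  have lk := S.th_lt k
  have ll := S.th_lt l
  have cij := S.cont i j hij
  have ckl := S.cont k l hkl
  obtain ⟨x, hx, hxe⟩ := ivt (f := S.f i j) (g := S.f k l) (a := S.th l - S.T) (b := S.th i)
    (by linarith) (cij.mono (Icc_subset_Icc (by linarith) le_rfl))
    (ckl.mono (Icc_subset_Icc le_rfl (by linarith)))
    (Or.inr ⟨by
      rw [S.left k l hkl]
      exact le_of_lt h, by
      rw [S.right i j hij]
      exact le_of_lt ((not_chi_right S hik hkl).1 h')⟩)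
  have cshift : ContinuousOn (fun z => S.f k l (z + S.T)) (Icc (S.th j - S.T) (S.th k - S.T)) := by
    refine ckl.comp (continuous_id.add continuous_const).continuousOn ?_
    rintro z ⟨hz1, hz2⟩
    constructor
    · show S.th l - S.T ≤ z + S.T
      linarith
    · show z + S.T ≤ S.th k
      linarith
  obtain ⟨x', hx', hxe'⟩ := ivt (f := S.f i j) (g := fun z => S.f k l (z + S.T))
    (a := S.th j - S.T) (b := S.th k - S.T) (by linarith)
    (cij.mono (Icc_subset_Icc le_rfl (by linarith))) cshift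
    (Or.inl ⟨by
      rw [S.left i j hij, sub_add_cancel]
      exact le_of_lt ((not_chi_right S hjk hkl).1 hc2), by
      rw [sub_add_cancel, S.right k l hkl]
      exact le_of_lt hc1⟩)
  have key := S.once i j k l hij hkl (fun e => by
      have := congrArg Prod.fst e
      exact absurd this (ne_of_lt hik))
    x ⟨by linarith [hx.1], by linarith [hx.2]⟩ x' ⟨by linarith [hx'.1], by linarith [hx'.2]⟩
    x ⟨by linarith [hx.1], by linarith [hx.2]⟩ (x' + S.T) ⟨by linarith [hx'.1], by linarith [hx'.2]⟩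
    (Or.inl rfl) (Or.inr (Or.inl rfl)) hxe hxe'
  have h1 := hx.1
  have h2 := hx'.2
  linarith

end H5GT
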