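import Pool.Agent.Lib.H5GT.C1
import Pool.Agent.Lib.H5GT.C2
import Pool.Agent.Lib.H5GT.C2b

/-! # H5GT C3b: the sign of `i j l` does not depend on `j`, second case -/

set_option autoImplicit false

namespace H5GT

open Set

variable {n : ℕ} (S : Strands n)

/-- `1 < 2 < 3 < 4`: not (`chi 1 3 4` and not `chi 1 2 4`).  From `chi_zero`, `not_chi_zero` for `134`, `124`:
`f 1 2 0 < f 1 4 0 < f 1 3 0`, so not `chi 1 2 3`; `f 3 4 0 < f 1 4 0 < f 2 4 0`, so `chi 2 3 4`.
The edges `12` and `34` meet at some `x` in `[th 4 - T, th 1]` (`y = x`): at `th 4 - T`: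
`f 1 2 < r 4 = f 3 4` by `not_chi` for `124`; at `th 1`: `f 3 4 < r 1 = f 1 2` by `chi_right` for `134`;
`ivt`.  They also meet at some `x'` in `[th 2 - T, th 3 - T]` (`y' = x' + T` in `[th 2, th 3]`): at
`th 2 - T`: `f 3 4 (th 2) < r 2 = f 1 2` by `chi_right` for `234`; at `th 3 - T`:
`f 1 2 < r 3 = f 3 4 (th 3)` by `not_chi` for `123`; `ivt`.  As `x' ≤ th 3 - T < th 4 - T ≤ x`, this
contradicts `S.once`. -/
theorem indep2 {i j k l : Fin n} (hij : i < j) (hjk : j < k) (hkl : k < l) (h : S.chi i k l)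
    (h' : ¬ S.chi i j l) : False := by
  have hik : i < k := hij.trans hjk
  have hjl : j < l := hjk.trans hkl
  have hil : i < l := hij.trans hjl
  have hTi := S.th_pos i
  have hTj := S.th_pos j
  have hTk := S.th_pos k
  have hTl := S.th_pos l
  have hLi := S.th_lt i
  have hLj := S.th_lt j
  have hLk := S.th_lt k
  have hLl := S.th_lt l
  have mij := S.th_mono hij
  have mjk := S.th_mono hjk
  have mkl := S.th_mono hkl
  obtain ⟨z1, z2⟩ := chi_zero S hik hkl h
  obtain ⟨z3, z4⟩ := not_chi_zero S hij hjl h'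
  have c1 : ¬ S.chi i j k := by
    intro hc
    have := (chi_zero S hij hjk hc).2
    linarith
  have c2 : S.chi j k l := by
    by_contra hc
    have := (not_chi_zero S hjk hkl hc).2
    linarith
  -- the first common point
  obtain ⟨x, hx, hxe⟩ := ivt (f := S.f i j) (g := S.f k l) (a := S.th l - S.T) (b := S.th i)
    (by linarith)
    ((S.cont i j hij).mono (Icc_subset_Icc (by linarith) le_rfl))
    ((S.cont k l hkl).mono (Icc_subset_Icc le_rfl (by linarith)))
    (Or.inl ⟨by
      rw [S.left k l hkl]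
      exact ((not_chi S hij hjl).1 h').le, by
      rw [S.right i j hij]
      exact ((chi_right S hik hkl).1 h).le⟩)
  -- the second common point
  obtain ⟨x', hx', hxe'⟩ := ivt (f := S.f i j) (g := fun x => S.f k l (x + S.T))
    (a := S.th j - S.T) (b := S.th k - S.T) (by linarith)
    ((S.cont i j hij).mono (Icc_subset_Icc le_rfl (by linarith)))
    ((S.cont k l hkl).comp (by fun_prop) (by
      intro z hz
      exact ⟨by linarith [hz.1], by linarith [hz.2]⟩))
    (Or.inr ⟨by
      simp only [sub_add_cancel]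
      rw [S.left i j hij]
      exact ((chi_right S hjk hkl).1 c2).le, by
      simp only [sub_add_cancel]
      rw [S.right k l hkl]
      exact ((not_chi S hij hjk).1 c1).le⟩)
  have hne : (i, j) ≠ (k, l) := by
    intro he
    have := congrArg Prod.fst he
    exact hik.ne this
  have := S.once i j k l hij hkl hne x ⟨by linarith [hx.1], hx.2⟩ x'
    ⟨hx'.1, by linarith [hx'.2]⟩ x ⟨hx.1, by linarith [hx.2]⟩ (x' + S.T)
    ⟨by linarith [hx'.1], by linarith [hx'.2]⟩ (Or.inl rfl) (Or.inr (Or.inl rfl)) hxe hxe'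
  linarith [hx.1, hx'.2]

end H5GT
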