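import Pool.Agent.Lib.H5GT.C2
import Pool.Agent.Lib.H5GT.C2b

/-! # H5GT C4: monotony of the signs -/

set_option autoImplicit false

namespace H5GT

variable {n : ℕ} (S : Strands n)

/-- all from `chi_zero`, `not_chi_zero`: if not `chi i k l`, then `f i k 0 < f i l 0 < f k l 0`, but
`f k l 0 < f j l 0 < f j k 0 < f i k 0` -/
theorem mono1 {i j k l : Fin n} (hij : i < j) (hjk : j < k) (hkl : k < l) (h : S.chi i j k)
    (h' : S.chi j k l) : S.chi i k l := by
  by_contra hc
  have h1 := chi_zero S hij hjk h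
  have h2 := chi_zero S hjk hkl h'
  have h3 := not_chi_zero S (hij.trans hjk) hkl hc
  exact lt_irrefl _ (((h3.1.trans h3.2).trans (h2.1.trans h2.2)).trans h1.1)

/-- the other sign -/
theorem mono2 {i j k l : Fin n} (hij : i < j) (hjk : j < k) (hkl : k < l) (h : ¬ S.chi i j k)
    (h' : ¬ S.chi j k l) : ¬ S.chi i k l := by
  intro hc
  have h1 := not_chi_zero S hij hjk h
  have h2 := not_chi_zero S hjk hkl h'
  have h3 := chi_zero S (hij.trans hjk) hkl hc
  exact lt_irrefl _ ((h3.1.trans h3.2).trans (h1.2.trans (h2.1.trans h2.2)))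

end H5GT
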