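import Pool.Agent.Lib.H5GT.C1

/-! # H5GT C5: the condition on five vertices -/

set_option autoImplicit false

namespace H5GT

open Set

variable {n : ℕ} (S : Strands n)

private theorem C5_aux {a b c d e : Fin n} (hab : a < b) (hbc : b < c) (hcd : c < d) (hde : d < e)
    (h : (S.r b < S.f d e (S.th b) ∧ S.f d e (S.th c) < S.f a b (S.th c - S.T) ∧ S.f a b (S.th d - S.T) < S.r d) ∨
      (S.f d e (S.th b) < S.r b ∧ S.f a b (S.th c - S.T) < S.f d e (S.th c) ∧ S.r d < S.f a b (S.th d - S.T))) :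
    False := by
  have tbc := S.th_mono hbc
  have tcd := S.th_mono hcd
  have pa := S.th_pos a
  have pb := S.th_pos b
  have ld := S.th_lt d
  have le := S.th_lt e
  have lb := S.left a b hab
  have rd := S.right d e hde
  have hf : ContinuousOn (S.f a b) (Icc (S.th b - S.T) (S.th d - S.T)) :=
    (S.cont a b hab).mono (Icc_subset_Icc le_rfl (by linarith))
  have hg : ContinuousOn (fun x => S.f d e (x + S.T)) (Icc (S.th b - S.T) (S.th d - S.T)) := by
    refine (S.cont d e hde).comp (by fun_prop) fun x hx => ?_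
    exact ⟨by linarith [hx.1], by linarith [hx.2]⟩
  have e1 : S.th b - S.T + S.T = S.th b := by ring
  have e2 : S.th c - S.T + S.T = S.th c := by ring
  have e3 : S.th d - S.T + S.T = S.th d := by ring
  have hx1 : ∃ x ∈ Icc (S.th b - S.T) (S.th c - S.T), S.f a b x = S.f d e (x + S.T) := by
    refine ivt (g := fun x => S.f d e (x + S.T)) (by linarith) (hf.mono (Icc_subset_Icc le_rfl (by linarith)))
      (hg.mono (Icc_subset_Icc le_rfl (by linarith))) ?_
    simp only [e1, e2, lb]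
    rcases h with ⟨h1, h2, -⟩ | ⟨h1, h2, -⟩
    · exact Or.inl ⟨h1.le, h2.le⟩
    · exact Or.inr ⟨h1.le, h2.le⟩
  have hx2 : ∃ x ∈ Icc (S.th c - S.T) (S.th d - S.T), S.f a b x = S.f d e (x + S.T) := by
    refine ivt (g := fun x => S.f d e (x + S.T)) (by linarith) (hf.mono (Icc_subset_Icc (by linarith) le_rfl))
      (hg.mono (Icc_subset_Icc (by linarith) le_rfl)) ?_
    simp only [e2, e3, rd]
    rcases h with ⟨-, h2, h3⟩ | ⟨-, h2, h3⟩
    · exact Or.inr ⟨h2.le, h3.le⟩
    · exact Or.inl ⟨h2.le, h3.le⟩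
  obtain ⟨x1, hx1, hx1'⟩ := hx1
  obtain ⟨x2, hx2, hx2'⟩ := hx2
  have hc : S.f a b (S.th c - S.T) ≠ S.f d e (S.th c - S.T + S.T) := by
    rw [e2]
    rcases h with ⟨-, h2, -⟩ | ⟨-, h2, -⟩
    · exact h2.ne'
    · exact h2.ne
  have n1 : x1 ≠ S.th c - S.T := by
    intro h3
    rw [h3] at hx1'
    exact hc hx1'
  have hne : (a, b) ≠ (d, e) := by
    intro h3
    have h4 : a = d := congrArg Prod.fst h3
    have h5 : a < d := hab.trans (hbc.trans hcd)
    exact absurd h4 h5.ne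
  have h6 := S.once a b d e hab hde hne x1 ⟨hx1.1, by linarith [hx1.2]⟩ x2 ⟨by linarith [hx2.1], by linarith [hx2.2]⟩
    (x1 + S.T) ⟨by linarith [hx1.1], by linarith [hx1.2]⟩ (x2 + S.T) ⟨by linarith [hx2.1], by linarith [hx2.2]⟩
    (Or.inr (Or.inl rfl)) (Or.inr (Or.inl rfl)) hx1' hx2'
  exact n1 (le_antisymm hx1.2 (h6 ▸ hx2.1))

/-- `1 < 2 < 3 < 4 < 5`.  The edges `12` (at `x` in `[th 2 - T, th 4 - T]`) and `45` (at `x + T` in `[th 2, th 4]`)
meet twice: at `x = th 2 - T`: `f 1 2 = r 2 < f 4 5 (th 2)` by `not_chi_right` for `245`; at `x = th 3 - T`: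
`f 4 5 (th 3) < r 3 < f 1 2` by `chi_right` for `345` and `chi 1 2 3`; at `x = th 4 - T`:
`f 1 2 < r 4 = f 4 5 (th 4)` by `not_chi` for `124`.  By `ivt` there are common points `x1` in
`[th 2 - T, th 3 - T]` and `x2` in `[th 3 - T, th 4 - T]`; neither is `th 3 - T`, so `x1 < x2`, which
contradicts `S.once 1 2 4 5`. -/
theorem five1 {a b c d e : Fin n} (hab : a < b) (hbc : b < c) (hcd : c < d) (hde : d < e)
    (h1 : S.chi a b c) (h2 : S.chi c d e) (h3 : ¬ S.chi a b d) (h4 : ¬ S.chi b d e) : False := by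
  have k2 := (chi_right S hcd hde).1 h2
  have k3 := (not_chi S hab (hbc.trans hcd)).1 h3
  have k4 := (not_chi_right S (hbc.trans hcd) hde).1 h4
  exact C5_aux S hab hbc hcd hde (Or.inl ⟨k4, k2.trans h1, k3⟩)

/-- the same with all signs reversed -/
theorem five2 {a b c d e : Fin n} (hab : a < b) (hbc : b < c) (hcd : c < d) (hde : d < e)
    (h1 : ¬ S.chi a b c) (h2 : ¬ S.chi c d e) (h3 : S.chi a b d) (h4 : S.chi b d e) : False := by
  have k1 := (not_chi S hab hbc).1 h1
  have k2 := (not_chi_right S hcd hde).1 h2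
  have k4 := (chi_right S (hbc.trans hcd) hde).1 h4
  exact C5_aux S hab hbc hcd hde (Or.inr ⟨k4, k1.trans k2, h3⟩)

end H5GT
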