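import Pool.Agent.Lib.H5GT.C1

/-! # H5GT C6: which edges of a `K_4` cross -/

set_option autoImplicit false

namespace H5GT

open Set

variable {n : ℕ} (S : Strands n)

/-- `1 < 2 < 3 < 4`, `chi 1 2 3 ↔ chi 2 3 4`: the edges `14` and `23` meet in `[th 4 - T, th 1]` (`y = x`).
At `th 4 - T`: `f 1 4 = r 4`, and `r 4 < f 2 3 (th 4 - T)` is `chi 2 3 4`; at `th 1`: `f 1 4 = r 1`, and
`f 2 3 (th 1) < r 1` is `chi 1 2 3` (`chi_right`); `ivt` (use `not_chi`, `not_chi_right` if both are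
false). -/
theorem cross1 {i j k l : Fin n} (hij : i < j) (hjk : j < k) (hkl : k < l)
    (h : S.chi i j k ↔ S.chi j k l) : S.Meet i l j k := by
  have hil : i < l := hij.trans (hjk.trans hkl)
  have hTi := S.th_pos i
  have hLl := S.th_lt l
  have mij := S.th_mono hij
  have mkl := S.th_mono hkl
  have key : (S.f i l (S.th l - S.T) ≤ S.f j k (S.th l - S.T) ∧ S.f j k (S.th i) ≤ S.f i l (S.th i)) ∨
      (S.f j k (S.th l - S.T) ≤ S.f i l (S.th l - S.T) ∧ S.f i l (S.th i) ≤ S.f j k (S.th i)) := by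
    rw [S.left i l hil, S.right i l hil]
    by_cases hc : S.chi i j k
    · left
      have h2 : S.chi j k l := h.1 hc
      exact ⟨le_of_lt h2, ((chi_right S hij hjk).1 hc).le⟩
    · right
      have h2 : ¬ S.chi j k l := fun h3 => hc (h.2 h3)
      exact ⟨((not_chi S hjk hkl).1 h2).le, ((not_chi_right S hij hjk).1 hc).le⟩
  obtain ⟨x, hx, hxe⟩ := ivt (f := S.f i l) (g := S.f j k) (a := S.th l - S.T) (b := S.th i)
    (by linarith) (S.cont i l hil)
    ((S.cont j k hjk).mono (Icc_subset_Icc (by linarith) (by linarith))) key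
  exact ⟨x, hx, x, ⟨by linarith [hx.1], by linarith [hx.2]⟩, Or.inl rfl, hxe⟩

/-- `1 < 2 < 3 < 4`, not (`chi 1 2 3 ↔ chi 2 3 4`): the edges `12` (at `x`) and `34` (at `x + T`) meet for some
`x` in `[th 2 - T, th 3 - T]`.  At `th 2 - T`: `f 1 2 = r 2`, and `f 3 4 (th 2) < r 2` is `chi 2 3 4`
(`chi_right`); at `th 3 - T`: `f 3 4 (th 3) = r 3`, and `r 3 < f 1 2 (th 3 - T)` is `chi 1 2 3`; `ivt`. -/
theorem cross2 {i j k l : Fin n} (hij : i < j) (hjk : j < k) (hkl : k < l)
    (h : ¬ (S.chi i j k ↔ S.chi j k l)) : S.Meet i j k l := by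
  have hTi := S.th_pos i
  have hTj := S.th_pos j
  have hLk := S.th_lt k
  have hLl := S.th_lt l
  have mij := S.th_mono hij
  have mjk := S.th_mono hjk
  have mkl := S.th_mono hkl
  have key : (S.f i j (S.th j - S.T) ≤ (fun x => S.f k l (x + S.T)) (S.th j - S.T) ∧
      (fun x => S.f k l (x + S.T)) (S.th k - S.T) ≤ S.f i j (S.th k - S.T)) ∨
      ((fun x => S.f k l (x + S.T)) (S.th j - S.T) ≤ S.f i j (S.th j - S.T) ∧
      S.f i j (S.th k - S.T) ≤ (fun x => S.f k l (x + S.T)) (S.th k - S.T)) := by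
    simp only [sub_add_cancel]
    rw [S.left i j hij, S.right k l hkl]
    by_cases hc : S.chi i j k
    · left
      have h2 : ¬ S.chi j k l := fun h3 => h ⟨fun _ => h3, fun _ => hc⟩
      exact ⟨((not_chi_right S hjk hkl).1 h2).le, le_of_lt hc⟩
    · right
      have h2 : S.chi j k l := by
        by_contra h3
        exact h ⟨fun h4 => absurd h4 hc, fun h4 => absurd h4 h3⟩
      exact ⟨((chi_right S hjk hkl).1 h2).le, ((not_chi S hij hjk).1 hc).le⟩
  obtain ⟨x, hx, hxe⟩ := ivt (f := S.f i j) (g := fun x => S.f k l (x + S.T))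
    (a := S.th j - S.T) (b := S.th k - S.T) (by linarith)
    ((S.cont i j hij).mono (Icc_subset_Icc le_rfl (by linarith)))
    ((S.cont k l hkl).comp (by fun_prop) (by
      intro z hz
      exact ⟨by linarith [hz.1], by linarith [hz.2]⟩)) key
  exact ⟨x, ⟨hx.1, by linarith [hx.2]⟩, x + S.T, ⟨by linarith [hx.1], by linarith [hx.2]⟩,
    Or.inr (Or.inl rfl), hxe⟩

end H5GT
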