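import Pool.Agent.Lib.H5GT.E3

/-! # H5GT E4: the strands of a generalized twisted drawing -/

set_option autoImplicit false

namespace H5GT

open Set SimpleDraw

private lemma pair_eq {n : ℕ} (τ : Equiv.Perm (Fin n)) {i j k l : Fin n} (hij : i < j) (hkl : k < l)
    (hne : (i, j) ≠ (k, l)) : s(τ i, τ j) ≠ s(τ k, τ l) := by
  intro h
  rcases Sym2.eq_iff.1 h with ⟨h1, h2⟩ | ⟨h1, h2⟩
  · exact hne (Prod.ext (τ.injective h1) (τ.injective h2))
  · have e1 := τ.injective h1
    have e2 := τ.injective h2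
    subst e1 e2
    exact absurd hij (not_lt.2 hkl.le)

private lemma polar_shift {O : ℂ} {r x y θ₀ : ℝ}
    (h : y = x ∨ y = x + 2 * Real.pi ∨ y = x - 2 * Real.pi) :
    polar O r (y + θ₀) = polar O r (x + θ₀) := by
  rcases h with rfl | rfl | rfl
  · rfl
  · have := polar_add O r (x + θ₀) 1
    rw [← this]
    congr 1
    push_cast
    ring
  · have := polar_add O r (x + θ₀) (-1)
    rw [← this]
    congr 1
    push_cast
    ring

/-- PROOF. `angles`; `τ = Tuple.sort φ`, so `φ ∘ τ` is strictly monotone (`Tuple.monotone_sort`, injectivity).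
`T = 2π`, `th i = φ (τ i) - θ₀`, `r i = R (τ i)`, `f i j x = ρ (x + θ₀)` with the `ρ` of the edge `τ i, τ j`.
`once`: the points `p = polar O (f i j x) (x + θ₀)` and `p'` (with `x'`) are in
`D.curve (τ i) (τ j) ∩ D.curve (τ k) (τ l)` (`polar_add`), so `p = p'` by `D.inter`, and `x = x'` by `polar_inj`,
since `|x - x'| < 2π`.  `Meet` gives a common point in the same way. -/
theorem strands {n : ℕ} (hn : 2 ≤ n) (D : SimpleDrawing n) (h : GeneralizedTwisted D) :
    ∃ (S : Strands n) (τ : Equiv.Perm (Fin n)), ∀ i j k l, i < j → k < l → S.Meet i j k l →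
      (D.curve (τ i) (τ j) ∩ D.curve (τ k) (τ l)).Nonempty := by
  classical
  obtain ⟨O, θ₀, h1, h2, h3⟩ := h
  obtain ⟨φ, R, hφ, hR, hpt, hinj, hρ⟩ := angles hn D h1 h2 h3
  have hρ' : ∀ i j : Fin n, ∃ ρ : ℝ → ℝ, φ i < φ j →
      ContinuousOn ρ (Icc (φ j - 2 * Real.pi) (φ i)) ∧
        (∀ θ ∈ Icc (φ j - 2 * Real.pi) (φ i), 0 < ρ θ) ∧
        D.curve i j = (fun θ => polar O (ρ θ) θ) '' Icc (φ j - 2 * Real.pi) (φ i) ∧
        ρ (φ j - 2 * Real.pi) = R j ∧ ρ (φ i) = R i := by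
    intro i j
    by_cases hij : φ i < φ j
    · obtain ⟨ρ, hρ1⟩ := hρ i j hij
      exact ⟨ρ, fun _ => hρ1⟩
    · exact ⟨fun _ => 0, fun h => absurd h hij⟩
  choose ρ hρs using hρ'
  set τ : Equiv.Perm (Fin n) := Tuple.sort φ with hτ
  have hmono : StrictMono (fun i => φ (τ i)) := by
    have hm : Monotone (φ ∘ τ) := Tuple.monotone_sort φ
    exact hm.strictMono_of_injective (hinj.comp τ.injective)
  -- shifted intervals
  have hmem : ∀ {i j : Fin n} {x : ℝ}, x ∈ Icc (φ (τ j) - θ₀ - 2 * Real.pi) (φ (τ i) - θ₀) →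
      x + θ₀ ∈ Icc (φ (τ j) - 2 * Real.pi) (φ (τ i)) := by
    intro i j x hx
    exact ⟨by linarith [hx.1], by linarith [hx.2]⟩
  have hpoint : ∀ {i j : Fin n} {x : ℝ}, i < j →
      x ∈ Icc (φ (τ j) - θ₀ - 2 * Real.pi) (φ (τ i) - θ₀) →
      0 < ρ (τ i) (τ j) (x + θ₀) ∧
        polar O (ρ (τ i) (τ j) (x + θ₀)) (x + θ₀) ∈ D.curve (τ i) (τ j) := by
    intro i j x hij hx
    obtain ⟨-, c2, c3, -, -⟩ := hρs (τ i) (τ j) (hmono hij)
    refine ⟨c2 _ (hmem hx), ?_⟩
    rw [c3]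
    exact ⟨x + θ₀, hmem hx, rfl⟩
  have hcommon : ∀ {i j k l : Fin n} {x y : ℝ}, i < j → k < l →
      x ∈ Icc (φ (τ j) - θ₀ - 2 * Real.pi) (φ (τ i) - θ₀) →
      y ∈ Icc (φ (τ l) - θ₀ - 2 * Real.pi) (φ (τ k) - θ₀) →
      (y = x ∨ y = x + 2 * Real.pi ∨ y = x - 2 * Real.pi) →
      ρ (τ i) (τ j) (x + θ₀) = ρ (τ k) (τ l) (y + θ₀) →
      polar O (ρ (τ i) (τ j) (x + θ₀)) (x + θ₀) ∈
        D.curve (τ i) (τ j) ∩ D.curve (τ k) (τ l) := by
    intro i j k l x y hij hkl hx hy hxy hr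
    refine ⟨(hpoint hij hx).2, ?_⟩
    have h5 := (hpoint hkl hy).2
    rw [polar_shift hxy, ← hr] at h5
    exact h5
  refine ⟨{ T := 2 * Real.pi
            th := fun i => φ (τ i) - θ₀
            r := fun i => R (τ i)
            f := fun i j x => ρ (τ i) (τ j) (x + θ₀)
            th_mono := ?_
            th_pos := ?_
            th_lt := ?_
            cont := ?_
            left := ?_
            right := ?_
            once := ?_ }, τ, ?_⟩
  · intro i j hij
    have := hmono hij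
    simp only at this ⊢
    linarith
  · intro i
    have := (hφ (τ i)).1
    linarith
  · intro i
    have := (hφ (τ i)).2
    linarith
  · intro i j hij
    obtain ⟨c1, -, -, -, -⟩ := hρs (τ i) (τ j) (hmono hij)
    exact c1.comp (by fun_prop) (fun x hx => hmem hx)
  · intro i j hij
    obtain ⟨-, -, -, c4, -⟩ := hρs (τ i) (τ j) (hmono hij)
    have e : φ (τ j) - θ₀ - 2 * Real.pi + θ₀ = φ (τ j) - 2 * Real.pi := by ring
    simp only [e]
    exact c4
  · intro i j hij
    obtain ⟨-, -, -, -, c5⟩ := hρs (τ i) (τ j) (hmono hij)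
    have e : φ (τ i) - θ₀ + θ₀ = φ (τ i) := by ring
    simp only [e]
    exact c5
  · intro i j k l hij hkl hne x hx x' hx' y hy y' hy' hxy hxy' e1 e2
    have p1 := hcommon hij hkl hx hy hxy e1
    have p2 := hcommon hij hkl hx' hy' hxy' e2
    have hs := D.inter (τ i) (τ j) (τ k) (τ l) (fun h => hij.ne (τ.injective h))
      (fun h => hkl.ne (τ.injective h)) (pair_eq τ hij hkl hne) p1 p2
    obtain ⟨-, m, hm⟩ := polar_inj (hpoint hij hx).1 (hpoint hij hx').1 hs
    have hlen := hmono hij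
    simp only at hlen
    have hpi := Real.pi_pos
    have hx1 := hx.1
    have hx2 := hx.2
    have hx3 := hx'.1
    have hx4 := hx'.2
    have hm0 : m = 0 := by
      have hlt : (m : ℝ) * (2 * Real.pi) < 1 * (2 * Real.pi) := by linarith
      have hgt : (-1 : ℝ) * (2 * Real.pi) < (m : ℝ) * (2 * Real.pi) := by linarith
      have h7 : (m : ℝ) < 1 := lt_of_mul_lt_mul_right hlt (by linarith)
      have h8 : (-1 : ℝ) < m := lt_of_mul_lt_mul_right hgt (by linarith)
      have h9 : m < 1 := by exact_mod_cast h7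
      have h10 : -1 < m := by exact_mod_cast h8
      omega
    rw [hm0] at hm
    simp only [Int.cast_zero, zero_mul, add_zero] at hm
    linarith
  · intro i j k l hij hkl hmeet
    obtain ⟨x, hx, y, hy, hxy, hr⟩ := hmeet
    exact ⟨_, hcommon hij hkl hx hy hxy hr⟩

end H5GT
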