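import Pool.Agent.Lib.H53P.TZ
import Pool.Agent.Lib.H5GT.B2
import Pool.Agent.Lib.H5GT.C3
import Pool.Agent.Lib.H5GT.C3b
import Pool.Agent.Lib.H5GT.C4
import Pool.Agent.Lib.H5GT.C5
import Pool.Agent.Lib.H5GT.C6
import Pool.Agent.Lib.H5GT.E4

/-! # H5GT F: generalized twisted drawings have a separating order -/

set_option autoImplicit false

namespace H5GT

open SimpleDraw

private theorem X_of {n : ℕ} (D : SimpleDrawing n) (τ : Equiv.Perm (Fin n)) {i j k l : Fin n}
    (h1 : i ≠ j) (h2 : k ≠ l) (h3 : i ≠ k) (h4 : i ≠ l) (h5 : j ≠ k) (h6 : j ≠ l)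
    (h : (D.curve (τ i) (τ j) ∩ D.curve (τ k) (τ l)).Nonempty) :
    (H53P.table D).X (τ i) (τ j) (τ k) (τ l) = true := by
  rw [H53P.table_X]
  unfold H53P.X
  refine @decide_eq_true _ (Classical.dec _) ?_
  exact ⟨τ.injective.ne h1, τ.injective.ne h2, τ.injective.ne h3, τ.injective.ne h4,
    τ.injective.ne h5, τ.injective.ne h6, h⟩

/-- every generalized twisted drawing has an order of the vertices such that separated edges do
not cross: `strands`, signs `χ = S.chi`, table `X i j k l = (table D).X (τ i) (τ j) (τ k) (τ l)`,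
`toposort` of `below_acyclic`, `sep_of_signs`; rank function `rk ∘ τ⁻¹` -/
theorem gt_sep {n : ℕ} (hn : 2 ≤ n) (D : SimpleDrawing n) (h : GeneralizedTwisted D) :
    ∃ rk : Fin n → ℕ, Function.Injective rk ∧
      ∀ a b c d, rk a < rk b → rk b < rk c → rk c < rk d → (H53P.table D).X a b c d = false := by
  obtain ⟨S, τ, hS⟩ := strands hn D h
  have hi : ∀ i j k l : Fin n, i < j → j < k → k < l → (S.chi i j l ↔ S.chi i k l) :=
    fun i j k l h1 h2 h3 => ⟨fun h => by_contra fun h' => indep1 S h1 h2 h3 h h',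
      fun h => by_contra fun h' => indep2 S h1 h2 h3 h h'⟩
  obtain ⟨rk, hr1, hr2⟩ := toposort (Below S.chi) (below_acyclic S.chi hi
    (fun i j k l h1 h2 h3 h4 h5 => mono1 S h1 h2 h3 h4 h5)
    (fun i j k l h1 h2 h3 h4 h5 => mono2 S h1 h2 h3 h4 h5)
    (fun a b c d e h1 h2 h3 h4 h5 h6 h7 h8 => five1 S h1 h2 h3 h4 h5 h6 h7 h8)
    (fun a b c d e h1 h2 h3 h4 h5 h6 h7 h8 => five2 S h1 h2 h3 h4 h5 h6 h7 h8))
  have key := sep_of_signs S.chi hi
    (fun i j k l => (H53P.table D).X (τ i) (τ j) (τ k) (τ l))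
    (fun a b c d => (H53P.table D).symm1 _ _ _ _) (fun a b c d => (H53P.table D).symm2 _ _ _ _)
    (fun a b c d h => (H53P.table D).one _ _ _ _ h)
    (fun i j k l h1 h2 h3 h4 => X_of D τ (h1.trans (h2.trans h3)).ne h2.ne h1.ne
      (h1.trans h2).ne (h2.trans h3).ne' h3.ne'
      (hS _ _ _ _ (h1.trans (h2.trans h3)) h2 (cross1 S h1 h2 h3 h4)))
    (fun i j k l h1 h2 h3 h4 => X_of D τ h1.ne h3.ne (h1.trans h2).ne
      (h1.trans (h2.trans h3)).ne h2.ne (h2.trans h3).ne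
      (hS _ _ _ _ h1 h3 (cross2 S h1 h2 h3 h4)))
    rk hr2
  refine ⟨fun v => rk (τ.symm v), hr1.comp τ.symm.injective, fun a b c d h1 h2 h3 => ?_⟩
  have := key (τ.symm a) (τ.symm b) (τ.symm c) (τ.symm d) h1 h2 h3
  simpa only [Equiv.apply_symm_apply] using this

end H5GT
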