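import Mathlib

/-! # H5GT A1: an acyclic relation -/

set_option autoImplicit false

namespace H5GT

/-- Walks with a given number of steps. -/
private def a1walk {n : ℕ} (R : Fin n → Fin n → Prop) : ℕ → Fin n → Fin n → Prop
  | 0, a, b => a = b
  | k + 1, a, b => ∃ c, R a c ∧ a1walk R k c b

private theorem a1_of_transGen {n : ℕ} (R : Fin n → Fin n → Prop) (b a : Fin n)
    (h : Relation.TransGen R a b) : ∃ k, a1walk R (k + 1) a b := by
  induction h using Relation.TransGen.head_induction_on with
  | single h => exact ⟨0, _, h, rfl⟩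
  | head h1 _ ih =>
    obtain ⟨k, hk⟩ := ih
    exact ⟨k + 1, _, h1, hk⟩

/-- Let `R` be a relation on `Fin n` such that: related elements are different and not consecutive
(`hne`); `R` is asymmetric (`has`); two different non-consecutive elements are related in one direction
(`htot`); there are no directed 3-cycles (`h3`) and no directed 4-cycles `a b c d` with `a, c`
consecutive and `b, d` consecutive (`h4`).  Then `R` has no directed cycles.
PROOF. By strong induction on `k ≥ 1` there is no closed walk of `k` steps (write `P 1 a b = R a b`,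
`P (k+1) a b = ∃ c, R a c ∧ P k c b`; a `TransGen` walk has some `P k`).  `k = 1, 2, 3`: `hne`, `has`, `h3`.
`k = 4`, `a b c d`: `a ≠ c` (`has`); if `a, c` are not consecutive, `R a c` or `R c a` gives a 3-cycle; so `a, c`
are consecutive, in the same way `b, d`; `h4`.  `k ≥ 5`: `a → b → c → d → e → ... → a` with a walk of `k - 4` steps
from `e` to `a`.  Each of the pairs `ac`, `bd`, `ce`, `ad`, `be` is a pair of consecutive elements: equality
gives a shorter closed walk, `R` forwards gives a shorter closed walk, `R` backwards gives a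
closed walk with 3 or 4 steps.  But then `(a,c), (c,e), (e,b), (b,d), (d,a)` are five pairs of consecutive
numbers, a contradiction to parity (`omega`). -/
theorem acyclic {n : ℕ} (R : Fin n → Fin n → Prop)
    (hne : ∀ a b, R a b → a ≠ b ∧ (a : ℕ) + 1 ≠ b ∧ (b : ℕ) + 1 ≠ a)
    (has : ∀ a b, R a b → ¬ R b a)
    (htot : ∀ a b : Fin n, a ≠ b → (a : ℕ) + 1 ≠ b → (b : ℕ) + 1 ≠ a → R a b ∨ R b a)
    (h3 : ∀ a b c, R a b → R b c → R c a → False)
    (h4 : ∀ a b c d, R a b → R b c → R c d → R d a →
      ((a : ℕ) + 1 = c ∨ (c : ℕ) + 1 = a) → ((b : ℕ) + 1 = d ∨ (d : ℕ) + 1 = b) → False) :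
    ∀ a, ¬ Relation.TransGen R a a := by
  intro x0 hx0
  obtain ⟨k0, hk0⟩ := a1_of_transGen R x0 x0 hx0
  have key : ∀ L : ℕ, 1 ≤ L → ∀ a, a1walk R L a a → False := by
    intro L
    induction L using Nat.strong_induction_on with
    | _ L IH =>
      intro hL a hw
      have pair : ∀ x y : Fin n, (x = y → False) → (R x y → False) → (R y x → False) →
          ((x : ℕ) + 1 = y ∨ (y : ℕ) + 1 = x) := by
        intro x y h1 h2 h5
        by_contra hcon
        push Not at hcon
        rcases htot x y h1 hcon.1 hcon.2 with h | h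
        · exact h2 h
        · exact h5 h
      match L, hL, hw, IH with
      | 1, _, hw, _ =>
        obtain ⟨b, hab, rfl⟩ := hw
        exact (hne _ _ hab).1 rfl
      | 2, _, hw, _ =>
        obtain ⟨b, hab, c, hbc, rfl⟩ := hw
        exact has _ _ hab hbc
      | 3, _, hw, _ =>
        obtain ⟨b, hab, c, hbc, d, hcd, rfl⟩ := hw
        exact h3 _ _ _ hab hbc hcd
      | 4, _, hw, _ =>
        obtain ⟨b, hab, c, hbc, d, hcd, e, hde, rfl⟩ := hw
        have h1 := pair e c (fun h => by subst h; exact has _ _ hab hbc)
          (fun h => h3 _ _ _ h hcd hde) (fun h => h3 _ _ _ hab hbc h)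
        have h2 := pair b d (fun h => by subst h; exact has _ _ hbc hcd)
          (fun h => h3 _ _ _ h hde hab) (fun h => h3 _ _ _ hbc hcd h)
        exact h4 _ _ _ _ hab hbc hcd hde h1 h2
      | k + 5, _, hw, IH =>
        obtain ⟨b, hab, c, hbc, d, hcd, e, hde, hea⟩ := hw
        have hea' : a1walk R (k + 1) e a := hea
        have hac := pair a c
          (fun h => by
            subst h
            exact IH (k + 3) (by omega) (by omega) _ ⟨d, hcd, e, hde, hea'⟩)
          (fun h => IH (k + 4) (by omega) (by omega) _ ⟨c, h, d, hcd, e, hde, hea'⟩)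
          (fun h => h3 _ _ _ hab hbc h)
        have hbd := pair b d
          (fun h => by
            subst h
            exact IH (k + 3) (by omega) (by omega) _ ⟨b, hab, e, hde, hea'⟩)
          (fun h => IH (k + 4) (by omega) (by omega) _ ⟨b, hab, d, h, e, hde, hea'⟩)
          (fun h => h3 _ _ _ hbc hcd h)
        have hce := pair c e
          (fun h => by
            subst h
            exact IH (k + 3) (by omega) (by omega) _ ⟨b, hab, c, hbc, hea'⟩)
          (fun h => IH (k + 4) (by omega) (by omega) _ ⟨b, hab, c, hbc, e, h, hea'⟩)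
          (fun h => h3 _ _ _ hcd hde h)
        have had := pair a d
          (fun h => by subst h; exact h3 _ _ _ hab hbc hcd)
          (fun h => IH (k + 3) (by omega) (by omega) _ ⟨d, h, e, hde, hea'⟩)
          (fun h => IH 4 (by omega) (by omega) a ⟨b, hab, c, hbc, d, hcd, a, h, rfl⟩)
        have hbe := pair b e
          (fun h => by subst h; exact h3 _ _ _ hbc hcd hde)
          (fun h => IH (k + 3) (by omega) (by omega) _ ⟨b, hab, e, h, hea'⟩)
          (fun h => IH 4 (by omega) (by omega) b ⟨c, hbc, d, hcd, e, hde, b, h, rfl⟩)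
        omega
  exact key (k0 + 1) (by omega) x0 hk0

end H5GT
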