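import Mathlib

/-! # H5GT A2: topological sorting -/

set_option autoImplicit false

namespace H5GT

/-- an acyclic relation on a finite type has an injective rank function.
PROOF. `g a` = the number of `b` with `TransGen R b a` is strictly monotone along `R` (if `R a b`, the set
of `a` is contained in the set of `b`, and `a` is in the second but not in the first).  Then
`rk a = g a * n + a` is injective (`(a : ℕ) < n`) and still strictly monotone along `R`. -/
theorem toposort {n : ℕ} (R : Fin n → Fin n → Prop) (h : ∀ a, ¬ Relation.TransGen R a a) :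
    ∃ rk : Fin n → ℕ, Function.Injective rk ∧ ∀ a b, R a b → rk a < rk b := by
  classical
  let g : Fin n → ℕ := fun a => (Finset.univ.filter fun b => Relation.TransGen R b a).card
  have hg : ∀ a b, R a b → g a < g b := by
    intro a b hab
    apply Finset.card_lt_card
    rw [Finset.ssubset_iff_of_subset]
    · refine ⟨a, ?_, ?_⟩
      · simp only [Finset.mem_filter, Finset.mem_univ, true_and]
        exact Relation.TransGen.single hab
      · simp only [Finset.mem_filter, Finset.mem_univ, true_and]
        exact h a
    · intro c hc
      simp only [Finset.mem_filter, Finset.mem_univ, true_and] at hc ⊢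
      exact hc.tail hab
  refine ⟨fun a => g a * n + (a : ℕ), ?_, ?_⟩
  · intro a b hab
    have hab' : g a * n + (a : ℕ) = g b * n + (b : ℕ) := hab
    have h1 : (g a * n + (a : ℕ)) % n = (a : ℕ) := by
      rw [Nat.mul_comm, Nat.mul_add_mod, Nat.mod_eq_of_lt a.2]
    have h2 : (g b * n + (b : ℕ)) % n = (b : ℕ) := by
      rw [Nat.mul_comm, Nat.mul_add_mod, Nat.mod_eq_of_lt b.2]
    apply Fin.ext
    rw [← h1, ← h2, hab']
  · intro a b hab
    have h1 := hg a b hab
    show g a * n + (a : ℕ) < g b * n + (b : ℕ)
    have h2 : (a : ℕ) < n := a.2
    have h3 : (g a + 1) * n ≤ g b * n := Nat.mul_le_mul_right n h1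
    rw [Nat.add_mul, Nat.one_mul] at h3
    omega

end H5GT
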