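import Pool.Agent.Lib.H5GT.A1
import Pool.Agent.Lib.H5GT.A2

/-! # H5GT B1: from signs to a rank function -/

set_option autoImplicit false

namespace H5GT

/-- `a` is below `b`: there is a vertex strictly between `a` and `b`, and the sign is `-` if `a < b` and `+` if
`b < a`.  (The middle vertex `m` does not matter.) -/
def Below {n : ℕ} (χ : Fin n → Fin n → Fin n → Prop) (a b : Fin n) : Prop :=
  (∃ m, a < m ∧ m < b ∧ ¬ χ a m b) ∨ (∃ m, b < m ∧ m < a ∧ χ b m a)

section aux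

variable {n : ℕ} (χ : Fin n → Fin n → Fin n → Prop)

theorem b1_mid (hi : ∀ i j k l, i < j → j < k → k < l → (χ i j l ↔ χ i k l))
    {a b m m' : Fin n} (h1 : a < m) (h2 : m < b) (h3 : a < m') (h4 : m' < b) :
    χ a m b ↔ χ a m' b := by
  rcases lt_trichotomy m m' with h | h | h
  · exact hi a m m' b h1 h h4
  · rw [h]
  · exact (hi a m' m b h3 h h2).symm

theorem b1_up (hi : ∀ i j k l, i < j → j < k → k < l → (χ i j l ↔ χ i k l))
    {a b m : Fin n} (h : Below χ a b) (h1 : a < m) (h2 : m < b) : ¬ χ a m b := by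
  rcases h with ⟨k, h3, h4, h5⟩ | ⟨k, h3, h4, h5⟩
  · rwa [b1_mid χ hi h1 h2 h3 h4]
  · exact absurd (h1.trans h2) (h3.trans h4).le.not_gt

theorem b1_down (hi : ∀ i j k l, i < j → j < k → k < l → (χ i j l ↔ χ i k l))
    {a b m : Fin n} (h : Below χ b a) (h1 : a < m) (h2 : m < b) : χ a m b := by
  rcases h with ⟨k, h3, h4, h5⟩ | ⟨k, h3, h4, h5⟩
  · exact absurd (h1.trans h2) (h3.trans h4).le.not_gt
  · rwa [b1_mid χ hi h1 h2 h3 h4]

theorem b1_ex {a b : Fin n} (h : Below χ a b ∨ Below χ b a) (hab : a < b) :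
    ∃ m, a < m ∧ m < b := by
  rcases h with (⟨k, h3, h4, h5⟩ | ⟨k, h3, h4, h5⟩) | (⟨k, h3, h4, h5⟩ | ⟨k, h3, h4, h5⟩)
  · exact ⟨k, h3, h4⟩
  · exact absurd hab (h3.trans h4).le.not_gt
  · exact absurd hab (h3.trans h4).le.not_gt
  · exact ⟨k, h3, h4⟩

theorem b1_c1 (hi : ∀ i j k l, i < j → j < k → k < l → (χ i j l ↔ χ i k l))
    (m1 : ∀ i j k l, i < j → j < k → k < l → χ i j k → χ j k l → χ i k l)
    (f1 : ∀ a b c d e, a < b → b < c → c < d → d < e → χ a b c → χ c d e → ¬ χ a b d →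
      ¬ χ b d e → False) {a b c : Fin n} (hab : a < b) (hbc : b < c)
    (h1 : Below χ b a) (h2 : Below χ c b) (h3 : Below χ a c) : False := by
  obtain ⟨x, hx1, hx2⟩ := b1_ex χ (Or.inr h1) hab
  obtain ⟨y, hy1, hy2⟩ := b1_ex χ (Or.inr h2) hbc
  have e1 := b1_down χ hi h1 hx1 hx2
  have e2 := b1_down χ hi h2 hy1 hy2
  have e3 := b1_up χ hi h3 hab hbc
  have e4 : ¬ χ x b c := fun h => e3 (m1 a x b c hx1 hx2 hbc e1 h)
  have e5 : ¬ χ x y c := by rwa [← hi x b y c hx2 hy1 hy2]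
  have e6 : ¬ χ a b y := fun h => e3 ((hi a b y c hab hy1 hy2).2 (m1 a b y c hab hy1 hy2 h e2))
  have e7 : ¬ χ a x y := by rwa [hi a x b y hx1 hx2 hy1]
  exact f1 a x b y c hx1 hx2 hy1 hy2 e1 e2 e7 e5

theorem b1_c2 (hi : ∀ i j k l, i < j → j < k → k < l → (χ i j l ↔ χ i k l))
    (m2 : ∀ i j k l, i < j → j < k → k < l → ¬ χ i j k → ¬ χ j k l → ¬ χ i k l)
    (f2 : ∀ a b c d e, a < b → b < c → c < d → d < e → ¬ χ a b c → ¬ χ c d e → χ a b d →
      χ b d e → False) {a b c : Fin n} (hab : a < b) (hbc : b < c)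
    (h1 : Below χ a b) (h2 : Below χ b c) (h3 : Below χ c a) : False := by
  obtain ⟨x, hx1, hx2⟩ := b1_ex χ (Or.inl h1) hab
  obtain ⟨y, hy1, hy2⟩ := b1_ex χ (Or.inl h2) hbc
  have e1 := b1_up χ hi h1 hx1 hx2
  have e2 := b1_up χ hi h2 hy1 hy2
  have e3 := b1_down χ hi h3 hab hbc
  have e4 : χ x b c := by
    by_contra h
    exact m2 a x b c hx1 hx2 hbc e1 h e3
  have e5 : χ x y c := by rwa [← hi x b y c hx2 hy1 hy2]
  have e6 : χ a b y := by
    by_contra h
    exact m2 a b y c hab hy1 hy2 h e2 ((hi a b y c hab hy1 hy2).1 e3)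
  have e7 : χ a x y := by rwa [hi a x b y hx1 hx2 hy1]
  exact f2 a x b y c hx1 hx2 hy1 hy2 e1 e2 e7 e5

/-- lower pair `p, p'`, upper pair `q, q'`. -/
theorem b1_q (hi : ∀ i j k l, i < j → j < k → k < l → (χ i j l ↔ χ i k l))
    (m1 : ∀ i j k l, i < j → j < k → k < l → χ i j k → χ j k l → χ i k l)
    (m2 : ∀ i j k l, i < j → j < k → k < l → ¬ χ i j k → ¬ χ j k l → ¬ χ i k l)
    {p p' q q' : Fin n} (h1 : p < p') (h2 : p' < q) (h3 : q < q') :
    (Below χ p q → Below χ p' q' → Below χ q' p → False) ∧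
    (Below χ q p → Below χ q' p' → Below χ p q' → False) := by
  constructor
  · intro e1 e2 e3
    exact m2 p p' q q' h1 h2 h3 (b1_up χ hi e1 h1 h2) (b1_up χ hi e2 h2 h3)
      (b1_down χ hi e3 (h1.trans h2) h3)
  · intro e1 e2 e3
    exact b1_up χ hi e3 (h1.trans h2) h3
      (m1 p p' q q' h1 h2 h3 (b1_down χ hi e1 h1 h2) (b1_down χ hi e2 h2 h3))

theorem b1_ne {a b : Fin n} (h : Below χ a b) :
    a ≠ b ∧ (a : ℕ) + 1 ≠ b ∧ (b : ℕ) + 1 ≠ a := by
  rcases h with ⟨k, h3, h4, h5⟩ | ⟨k, h3, h4, h5⟩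
  · rw [Fin.lt_def] at h3 h4
    refine ⟨fun h => ?_, by omega, by omega⟩
    rw [h] at h3
    omega
  · rw [Fin.lt_def] at h3 h4
    refine ⟨fun h => ?_, by omega, by omega⟩
    rw [h] at h4
    omega

end aux

/-- `Below` is acyclic: `acyclic` with `hne`: from the middle vertex; `has`: from `hi`; `htot`: choose the
middle vertex `a + 1`; `h3`: let `a < b < c` be the three vertices in increasing order (two cases
for the direction of the cycle).  Direction `b` below `a`, `c` below `b`, `a` below `c`: `χ a x b`, `χ b y c` and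
not `χ a m c` with `a < x < b < y < c`, and by `hi` not `χ a b c`.  If `χ x b c` held, `m1` for `a x b c` would
give `χ a b c`; so not `χ x b c`, so not `χ x y c` (`hi`).  If `χ a b y` held, `m1` for `a b y c` would
give `χ a y c`; so not `χ a b y`, so not `χ a x y` (`hi`).  Now `f1 a x b y c`.  The other direction with `m2`,
`f2`.  `h4`: `{a, c} = {i, i+1}`, `{b, d} = {j, j+1}`; related elements are not consecutive, so `i + 1 < j` or
`j + 1 < i` (say `i + 1 < j`, even `i + 2 < j`; then a middle vertex of any pair is any vertex between `i + 1` and `j`, and by `hi`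
`χ i (i+1) j ↔ χ i m j`, `χ (i+1) m (j+1) ↔ χ (i+1) j (j+1)`); in both directions `m1` resp. `m2` for
`i, i+1, j, j+1` gives a contradiction with the sign of `i, j+1`. -/
theorem below_acyclic {n : ℕ} (χ : Fin n → Fin n → Fin n → Prop)
    (hi : ∀ i j k l, i < j → j < k → k < l → (χ i j l ↔ χ i k l))
    (m1 : ∀ i j k l, i < j → j < k → k < l → χ i j k → χ j k l → χ i k l)
    (m2 : ∀ i j k l, i < j → j < k → k < l → ¬ χ i j k → ¬ χ j k l → ¬ χ i k l)
    (f1 : ∀ a b c d e, a < b → b < c → c < d → d < e → χ a b c → χ c d e → ¬ χ a b d →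
      ¬ χ b d e → False)
    (f2 : ∀ a b c d e, a < b → b < c → c < d → d < e → ¬ χ a b c → ¬ χ c d e → χ a b d →
      χ b d e → False) :
    ∀ a, ¬ Relation.TransGen (Below χ) a a := by
  refine acyclic (Below χ) (fun a b h => b1_ne χ h) ?_ ?_ ?_ ?_
  · -- asymmetric
    intro a b h1 h2
    rcases lt_trichotomy a b with h | h | h
    · obtain ⟨m, hm1, hm2⟩ := b1_ex χ (Or.inl h1) h
      exact b1_up χ hi h1 hm1 hm2 (b1_down χ hi h2 hm1 hm2)
    · exact (b1_ne χ h1).1 h
    · obtain ⟨m, hm1, hm2⟩ := b1_ex χ (Or.inl h2) h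
      exact b1_up χ hi h2 hm1 hm2 (b1_down χ hi h1 hm1 hm2)
  · -- total
    intro a b h1 h2 h3
    have key : ∀ u v : Fin n, u < v → (u : ℕ) + 1 ≠ v → Below χ u v ∨ Below χ v u := by
      intro u v huv huv'
      rw [Fin.lt_def] at huv
      have hv := v.isLt
      let m : Fin n := ⟨u + 1, by omega⟩
      have hm1 : u < m := by
        rw [Fin.lt_def]
        exact Nat.lt_succ_self _
      have hm2 : m < v := by
        rw [Fin.lt_def]
        change (u : ℕ) + 1 < v
        omega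
      by_cases h : χ u m v
      · exact Or.inr (Or.inr ⟨m, hm1, hm2, h⟩)
      · exact Or.inl (Or.inl ⟨m, hm1, hm2, h⟩)
    rcases lt_or_gt_of_ne h1 with h | h
    · exact key a b h h2
    · exact (key b a h h3).symm
  · -- three
    intro a b c h1 h2 h3
    rcases lt_or_gt_of_ne (b1_ne χ h1).1 with hab | hab
    · rcases lt_or_gt_of_ne (b1_ne χ h2).1 with hbc | hbc
      · exact b1_c2 χ hi m2 f2 hab hbc h1 h2 h3
      · rcases lt_or_gt_of_ne (b1_ne χ h3).1 with hca | hca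
        · exact b1_c2 χ hi m2 f2 hca hab h3 h1 h2
        · exact b1_c1 χ hi m1 f1 hca hbc h3 h2 h1
    · rcases lt_or_gt_of_ne (b1_ne χ h2).1 with hbc | hbc
      · rcases lt_or_gt_of_ne (b1_ne χ h3).1 with hca | hca
        · exact b1_c2 χ hi m2 f2 hbc hca h2 h3 h1
        · exact b1_c1 χ hi m1 f1 hab hca h1 h3 h2
      · exact b1_c1 χ hi m1 f1 hbc hab h2 h1 h3
  · -- four
    intro a b c d h1 h2 h3 h4 hac hbd
    have n1 := b1_ne χ h1
    have n2 := b1_ne χ h2
    have n3 := b1_ne χ h3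
    have n4 := b1_ne χ h4
    simp only [ne_eq, Fin.ext_iff] at n1 n2 n3 n4
    rcases hac with hac | hac <;> rcases hbd with hbd | hbd <;>
      rcases lt_or_gt_of_ne (b1_ne χ h1).1 with hab | hab
    · have e1 : a < c := Fin.lt_def.2 (by omega)
      have e2 : b < d := Fin.lt_def.2 (by omega)
      have e3 : c < b := Fin.lt_def.2 (by rw [Fin.lt_def] at hab; omega)
      exact (b1_q χ hi m1 m2 e1 e3 e2).1 h1 h3 h4
    · have e1 : a < c := Fin.lt_def.2 (by omega)
      have e2 : b < d := Fin.lt_def.2 (by omega)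
      have e3 : d < a := Fin.lt_def.2 (by rw [Fin.lt_def] at hab; omega)
      exact (b1_q χ hi m1 m2 e2 e3 e1).2 h1 h3 h2
    · have e1 : a < c := Fin.lt_def.2 (by omega)
      have e2 : d < b := Fin.lt_def.2 (by omega)
      have e3 : c < d := Fin.lt_def.2 (by rw [Fin.lt_def] at hab; omega)
      exact (b1_q χ hi m1 m2 e1 e3 e2).2 h4 h2 h1
    · have e1 : a < c := Fin.lt_def.2 (by omega)
      have e2 : d < b := Fin.lt_def.2 (by omega)
      have e3 : b < a := Fin.lt_def.2 (by rw [Fin.lt_def] at hab; omega)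
      exact (b1_q χ hi m1 m2 e2 e3 e1).1 h4 h2 h3
    · have e1 : c < a := Fin.lt_def.2 (by omega)
      have e2 : b < d := Fin.lt_def.2 (by omega)
      have e3 : a < b := Fin.lt_def.2 (by rw [Fin.lt_def] at hab; omega)
      exact (b1_q χ hi m1 m2 e1 e3 e2).2 h2 h4 h3
    · have e1 : c < a := Fin.lt_def.2 (by omega)
      have e2 : b < d := Fin.lt_def.2 (by omega)
      have e3 : d < c := Fin.lt_def.2 (by rw [Fin.lt_def] at hab; omega)
      exact (b1_q χ hi m1 m2 e2 e3 e1).1 h2 h4 h1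
    · have e1 : c < a := Fin.lt_def.2 (by omega)
      have e2 : d < b := Fin.lt_def.2 (by omega)
      have e3 : a < d := Fin.lt_def.2 (by rw [Fin.lt_def] at hab; omega)
      exact (b1_q χ hi m1 m2 e1 e3 e2).1 h3 h1 h2
    · have e1 : c < a := Fin.lt_def.2 (by omega)
      have e2 : d < b := Fin.lt_def.2 (by omega)
      have e3 : b < c := Fin.lt_def.2 (by rw [Fin.lt_def] at hab; omega)
      exact (b1_q χ hi m1 m2 e2 e3 e1).2 h3 h1 h4

end H5GT
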