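import Pool.Agent.Lib.H5GT.Defs

/-! # H5GT C0: intermediate values for two functions -/

set_option autoImplicit false

namespace H5GT

open Set

/-- two continuous functions which change their order have a common value (intermediate value theorem
for `f - g`) -/
theorem ivt {f g : ℝ → ℝ} {a b : ℝ} (hab : a ≤ b) (hf : ContinuousOn f (Icc a b))
    (hg : ContinuousOn g (Icc a b)) (h : (f a ≤ g a ∧ g b ≤ f b) ∨ (g a ≤ f a ∧ f b ≤ g b)) :
    ∃ x ∈ Icc a b, f x = g x := by
  rcases h with ⟨h1, h2⟩ | ⟨h1, h2⟩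
  · have hc : ContinuousOn (fun x => f x - g x) (Icc a b) := hf.sub hg
    have h0 : (0 : ℝ) ∈ Icc ((fun x => f x - g x) a) ((fun x => f x - g x) b) :=
      ⟨by simpa using h1, by simpa using h2⟩
    obtain ⟨x, hx, hfx⟩ := intermediate_value_Icc hab hc h0
    exact ⟨x, hx, sub_eq_zero.mp hfx⟩
  · have hc : ContinuousOn (fun x => g x - f x) (Icc a b) := hg.sub hf
    have h0 : (0 : ℝ) ∈ Icc ((fun x => g x - f x) a) ((fun x => g x - f x) b) :=
      ⟨by simpa using h1, by simpa using h2⟩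
    obtain ⟨x, hx, hfx⟩ := intermediate_value_Icc hab hc h0
    exact ⟨x, hx, (sub_eq_zero.mp hfx).symm⟩

/-- two continuous functions without a common value keep their order (from `ivt`) -/
theorem keep {f g : ℝ → ℝ} {a b : ℝ} (hab : a ≤ b) (hf : ContinuousOn f (Icc a b))
    (hg : ContinuousOn g (Icc a b)) (h : ∀ x ∈ Icc a b, f x ≠ g x) : (f a < g a ↔ f b < g b) := by
  constructor
  · intro h1
    by_contra h2
    obtain ⟨x, hx, hfx⟩ := ivt hab hf hg (Or.inl ⟨h1.le, not_lt.mp h2⟩)
    exact h x hx hfx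
  · intro h1
    by_contra h2
    obtain ⟨x, hx, hfx⟩ := ivt hab hf hg (Or.inr ⟨not_lt.mp h2, h1.le⟩)
    exact h x hx hfx

end H5GT
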