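import Pool.Agent.Lib.H5GT.C0

/-! # H5GT C1: the sign of a triple, seen from both ends -/

set_option autoImplicit false

namespace H5GT

open Set

variable {n : ℕ} (S : Strands n)

private theorem c1_ne {i j k : Fin n} (hij : i < j) (hjk : j < k) {x : ℝ}
    (h1 : S.th k - S.T ≤ x) (h2 : x ≤ S.th i) : S.f j k x ≠ S.f i j x := by
  intro h
  have e1 := S.th_mono hij
  have e2 := S.th_mono hjk
  have e3 := S.th_lt j
  have e4 := S.th_pos j
  have e5 := S.th_pos i
  have e6 := S.th_lt k
  have hx := S.once i j j k hij hjk (fun hh => (ne_of_lt hij) (congrArg Prod.fst hh)) x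
    ⟨by linarith, h2⟩ (S.th j - S.T) ⟨le_refl _, by linarith⟩ x ⟨h1, by linarith⟩ (S.th j)
    ⟨by linarith, le_refl _⟩ (Or.inl rfl) (Or.inr (Or.inl (by ring))) h.symm
    ((S.left i j hij).trans (S.right j k hjk).symm)
  linarith

private theorem c1_keep {i j k : Fin n} (hij : i < j) (hjk : j < k) :
    S.f j k (S.th k - S.T) < S.f i j (S.th k - S.T) ↔ S.f j k (S.th i) < S.f i j (S.th i) := by
  have e1 := S.th_mono hij
  have e2 := S.th_mono hjk
  have e5 := S.th_pos i
  have e6 := S.th_lt k
  refine keep (by linarith) ?_ ?_ fun x hx => c1_ne S hij hjk hx.1 hx.2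
  · exact (S.cont j k hjk).mono (Icc_subset_Icc (le_refl _) e1.le)
  · exact (S.cont i j hij).mono (Icc_subset_Icc (by linarith) (le_refl _))

/-- `i < j < k`. The edges `ij` and `jk` meet only in the vertex `j` (`x = th j - T`, `y = th j = x + T`;
`S.once i j j k`), so on `[th k - T, th i]`, contained in both domains (`th j - T < th k - T`), they keep
their order (`keep`).  At `th k - T`: `f j k = r k`; at `th i`: `f i j = r i`. -/
theorem chi_right {i j k : Fin n} (hij : i < j) (hjk : j < k) :
    S.chi i j k ↔ S.f j k (S.th i) < S.r i := by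
  have h := c1_keep S hij hjk
  rw [S.left j k hjk, S.right i j hij] at h
  exact h

/-- the same with the other sign (the two values are different: a common point at `th k - T` or at
`th i` is impossible, see `chi_right`) -/
theorem not_chi_right {i j k : Fin n} (hij : i < j) (hjk : j < k) :
    ¬ S.chi i j k ↔ S.r i < S.f j k (S.th i) := by
  have e5 := S.th_pos i
  have e6 := S.th_lt k
  have h := c1_ne S hij hjk (x := S.th i) (by linarith) (le_refl _)
  rw [S.right i j hij] at h
  rw [chi_right S hij hjk, not_lt]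
  exact ⟨fun h1 => lt_of_le_of_ne h1 h.symm, fun h1 => h1.le⟩

/-- the vertex `k` is not on the edge `ij` (as in `chi_right`, at `x = th k - T`) -/
theorem not_chi {i j k : Fin n} (hij : i < j) (hjk : j < k) :
    ¬ S.chi i j k ↔ S.f i j (S.th k - S.T) < S.r k := by
  have e5 := S.th_pos i
  have e6 := S.th_lt k
  have h := c1_ne S hij hjk (x := S.th k - S.T) (le_refl _) (by linarith)
  rw [S.left j k hjk] at h
  unfold Strands.chi
  rw [not_lt]
  exact ⟨fun h1 => lt_of_le_of_ne h1 h.symm, fun h1 => h1.le⟩

end H5GT
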