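import Pool.Agent.SimpleDraw.Defs

/-! # H5GT: generalized twisted drawings, definitions

`Strands n` is the combinatorial-analytic content of a generalized twisted drawing with the vertices
sorted by the angle: for `i < j` the edge `ij` is the graph (angle, logarithm or value of the radius)
of a continuous function `f i j` on `[th j - T, th i]`, `T = 2π`. -/

set_option autoImplicit false

namespace H5GT

open Set SimpleDraw

/-- generalized twisted: for some point `O`, every edge is met at most once by each ray from `O`,
and some ray from `O` contains no vertex and meets all edges -/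
def GeneralizedTwisted {n : ℕ} (D : SimpleDrawing n) : Prop :=
  ∃ (O : ℂ) (θ₀ : ℝ), (∀ i j, i ≠ j → IsPolarArc O (D.curve i j) (D.pt i) (D.pt j)) ∧
    (∀ (i : Fin n) (r : ℝ), 0 ≤ r → polar O r θ₀ ≠ D.pt i) ∧
    ∀ i j, i ≠ j → ∃ r : ℝ, 0 ≤ r ∧ polar O r θ₀ ∈ D.curve i j

/-- strands: `th` the angles, `r` the radii of the vertices, `f i j` (for `i < j`) the edge `ij` over
the interval `[th j - T, th i]`, which contains `0` -/
structure Strands (n : ℕ) where
  /-- the period -/
  T : ℝ
  /-- the angle of a vertex -/
  th : Fin n → ℝ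
  /-- the radius of a vertex -/
  r : Fin n → ℝ
  /-- the edge -/
  f : Fin n → Fin n → ℝ → ℝ
  th_mono : StrictMono th
  th_pos : ∀ i, 0 < th i
  th_lt : ∀ i, th i < T
  cont : ∀ i j, i < j → ContinuousOn (f i j) (Icc (th j - T) (th i))
  left : ∀ i j, i < j → f i j (th j - T) = r j
  right : ∀ i j, i < j → f i j (th i) = r i
  /-- two different edges have at most one common point (a common point is one with the same
  angle modulo `T` and the same radius) -/
  once : ∀ i j k l, i < j → k < l → (i, j) ≠ (k, l) →
    ∀ x ∈ Icc (th j - T) (th i), ∀ x' ∈ Icc (th j - T) (th i),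
    ∀ y ∈ Icc (th l - T) (th k), ∀ y' ∈ Icc (th l - T) (th k),
    (y = x ∨ y = x + T ∨ y = x - T) → (y' = x' ∨ y' = x' + T ∨ y' = x' - T) →
    f i j x = f k l y → f i j x' = f k l y' → x = x'

variable {n : ℕ}

/-- the sign of a triple `i < j < k`: the edge `ij` passes above the vertex `k` -/
def Strands.chi (S : Strands n) (i j k : Fin n) : Prop := S.r k < S.f i j (S.th k - S.T)

/-- the edges `ij` and `kl` (`i < j`, `k < l`) have a common point -/
def Strands.Meet (S : Strands n) (i j k l : Fin n) : Prop :=
  ∃ x ∈ Icc (S.th j - S.T) (S.th i), ∃ y ∈ Icc (S.th l - S.T) (S.th k),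
    (y = x ∨ y = x + S.T ∨ y = x - S.T) ∧ S.f i j x = S.f k l y

end H5GT
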