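import Pool.Agent.Lib.H5GT.Defs

/-! # H5GT E1: polar coordinates -/

set_option autoImplicit false

namespace H5GT

open Set SimpleDraw

/-- polar coordinates are unique up to multiples of `2π` (take norms: `r = r'`; cancel `r`;
`Complex.exp_eq_exp_iff_exists_int`) -/
theorem polar_inj {O : ℂ} {r r' θ θ' : ℝ} (hr : 0 < r) (hr' : 0 < r')
    (h : polar O r θ = polar O r' θ') : r = r' ∧ ∃ k : ℤ, θ = θ' + k * (2 * Real.pi) := by
  unfold polar at h
  have h1 : (r : ℂ) * Complex.exp (θ * Complex.I) = (r' : ℂ) * Complex.exp (θ' * Complex.I) :=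
    add_left_cancel h
  have hrr : r = r' := by
    have h2 := congrArg (fun z : ℂ => ‖z‖) h1
    simp only [norm_mul, Complex.norm_exp_ofReal_mul_I, mul_one, Complex.norm_real,
      Real.norm_eq_abs] at h2
    rwa [abs_of_pos hr, abs_of_pos hr'] at h2
  refine ⟨hrr, ?_⟩
  subst hrr
  have hr0 : (r : ℂ) ≠ 0 := by
    exact_mod_cast hr.ne'
  have h3 : Complex.exp (θ * Complex.I) = Complex.exp (θ' * Complex.I) := mul_left_cancel₀ hr0 h1
  obtain ⟨k, hk⟩ := Complex.exp_eq_exp_iff_exists_int.1 h3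
  refine ⟨k, ?_⟩
  have h4 : (θ : ℂ) = θ' + k * (2 * Real.pi) := by
    have h5 : ((θ : ℂ) - (θ' + k * (2 * Real.pi))) * Complex.I = 0 := by
      linear_combination hk
    rcases mul_eq_zero.1 h5 with h6 | h6
    · exact sub_eq_zero.1 h6
    · exact absurd h6 Complex.I_ne_zero
  exact_mod_cast h4

theorem polar_add (O : ℂ) (r θ : ℝ) (k : ℤ) : polar O r (θ + k * (2 * Real.pi)) = polar O r θ := by
  unfold polar
  have h : Complex.exp (((θ + k * (2 * Real.pi) : ℝ) : ℂ) * Complex.I) = Complex.exp (θ * Complex.I) := by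
    rw [Complex.exp_eq_exp_iff_exists_int]
    refine ⟨k, ?_⟩
    push_cast
    ring
  rw [h]

end H5GT
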