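import Pool.Agent.Lib.H5GT.E1

/-! # H5GT E2: normal form of one edge -/

set_option autoImplicit false

namespace H5GT

open Set SimpleDraw

/-- An arc `e` from `a` to `b` which is monotone around `O`, meets the ray with angle `θ₀`, while `a` and `b` are
not on this ray, has a parametrization over an interval `(α, β)` which contains `θ₀`.
PROOF. Let `α, β, ρ` be as in `IsPolarArc` and `polar O r θ₀ = polar O (ρ θ) θ` with `θ` in `[α, β]`.  `r > 0`
(otherwise `polar O (ρ θ) θ = O`), so by `polar_inj` `θ = θ₀ + 2 k π`.  Replace `α, β, ρ` by `α - 2 k π`,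
`β - 2 k π`, `ρ (· + 2 k π)` (`polar_add`).  `θ₀ ≠ α, β` because `a`, `b` are not on the ray. -/
theorem edge_normal {O : ℂ} {θ₀ : ℝ} {e : Set ℂ} {a b : ℂ} (h : IsPolarArc O e a b)
    (ha : ∀ r : ℝ, 0 ≤ r → polar O r θ₀ ≠ a) (hb : ∀ r : ℝ, 0 ≤ r → polar O r θ₀ ≠ b)
    (hr : ∃ r : ℝ, 0 ≤ r ∧ polar O r θ₀ ∈ e) :
    ∃ (α β : ℝ) (ρ : ℝ → ℝ), α < θ₀ ∧ θ₀ < β ∧ β < α + 2 * Real.pi ∧ ContinuousOn ρ (Icc α β) ∧
      (∀ θ ∈ Icc α β, 0 < ρ θ) ∧ e = (fun θ => polar O (ρ θ) θ) '' Icc α β ∧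
      ((polar O (ρ α) α = a ∧ polar O (ρ β) β = b) ∨
        (polar O (ρ α) α = b ∧ polar O (ρ β) β = a)) := by
  obtain ⟨α, β, ρ, hαβ, hβ, hρc, hρpos, he, hends⟩ := h
  obtain ⟨r, hr0, hre⟩ := hr
  rw [he] at hre
  obtain ⟨θ, hθ, hθe⟩ := hre
  have hθe' : polar O (ρ θ) θ = polar O r θ₀ := hθe
  have hrpos : 0 < r := by
    rcases hr0.lt_or_eq with h0 | h0
    · exact h0
    · exfalso
      rw [← h0] at hθe'
      unfold polar at hθe'
      have h1 : ((ρ θ : ℝ) : ℂ) * Complex.exp (θ * Complex.I) = 0 := by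
        have h2 := add_left_cancel hθe'
        rw [h2]
        simp
      rcases mul_eq_zero.mp h1 with h3 | h3
      · exact (hρpos θ hθ).ne' (Complex.ofReal_eq_zero.mp h3)
      · exact Complex.exp_ne_zero _ h3
  obtain ⟨-, k, hk⟩ := polar_inj (hρpos θ hθ) hrpos hθe'
  have hshift : ∀ (R x : ℝ), polar O R (x + k * (2 * Real.pi)) = polar O R x :=
    fun R x => polar_add O R x k
  obtain ⟨s, hs⟩ : ∃ s : ℝ, s = k * (2 * Real.pi) := ⟨_, rfl⟩
  rw [← hs] at hk hshift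
  have hA : θ ≠ α := by
    intro h0
    rcases hends with ⟨h1, -⟩ | ⟨h1, -⟩
    · exact ha r hr0 (by rw [← hθe', h0]; exact h1)
    · exact hb r hr0 (by rw [← hθe', h0]; exact h1)
  have hB : θ ≠ β := by
    intro h0
    rcases hends with ⟨-, h1⟩ | ⟨-, h1⟩
    · exact hb r hr0 (by rw [← hθe', h0]; exact h1)
    · exact ha r hr0 (by rw [← hθe', h0]; exact h1)
  have h1 : α < θ := lt_of_le_of_ne hθ.1 (Ne.symm hA)
  have h2 : θ < β := lt_of_le_of_ne hθ.2 hB
  have e1 : α - s + s = α := by ring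
  have e2 : β - s + s = β := by ring
  refine ⟨α - s, β - s, fun x => ρ (x + s), by linarith, by linarith, by linarith, ?_, ?_, ?_, ?_⟩
  · refine hρc.comp (continuous_add_const s).continuousOn ?_
    intro x hx
    exact ⟨by linarith [hx.1], by linarith [hx.2]⟩
  · intro x hx
    exact hρpos _ ⟨by linarith [hx.1], by linarith [hx.2]⟩
  · rw [he]
    ext z
    constructor
    · rintro ⟨x, hx, rfl⟩
      refine ⟨x - s, ⟨by linarith [hx.1], by linarith [hx.2]⟩, ?_⟩
      have e3 : x - s + s = x := by ring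
      show polar O (ρ (x - s + s)) (x - s) = polar O (ρ x) x
      rw [← hshift _ (x - s), e3]
    · rintro ⟨x, hx, rfl⟩
      refine ⟨x + s, ⟨by linarith [hx.1], by linarith [hx.2]⟩, ?_⟩
      exact hshift _ _
  · show (polar O (ρ (α - s + s)) (α - s) = a ∧ polar O (ρ (β - s + s)) (β - s) = b) ∨
      (polar O (ρ (α - s + s)) (α - s) = b ∧ polar O (ρ (β - s + s)) (β - s) = a)
    rw [← hshift _ (α - s), ← hshift _ (β - s), e1, e2]
    exact hends

end H5GT
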