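import Pool.Agent.Lib.H5GT.E2

/-! # H5GT E3: angles of the vertices and edges over `[φ j - 2π, φ i]` -/

set_option autoImplicit false

namespace H5GT

open Set SimpleDraw

private theorem e3_uniq {O : ℂ} {θ₀ r r' θ θ' : ℝ} (hr : 0 < r) (hr' : 0 < r')
    (h1 : θ₀ < θ) (h2 : θ < θ₀ + 2 * Real.pi) (h1' : θ₀ < θ') (h2' : θ' < θ₀ + 2 * Real.pi)
    (h : polar O r θ = polar O r' θ') : r = r' ∧ θ = θ' := by
  obtain ⟨h3, k, hk⟩ := polar_inj hr hr' h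
  refine ⟨h3, ?_⟩
  have hpi := Real.pi_pos
  have hk0 : k = 0 := by
    have hlt : (k : ℝ) < 1 := by
      by_contra hcon
      push Not at hcon
      nlinarith
    have hgt : (-1 : ℝ) < (k : ℝ) := by
      by_contra hcon
      push Not at hcon
      nlinarith
    have h4 : k < 1 := by exact_mod_cast hlt
    have h5 : -1 < k := by exact_mod_cast hgt
    omega
  rw [hk, hk0]
  simp

private theorem e3_shift (O : ℂ) (r θ : ℝ) : polar O r (θ + 2 * Real.pi) = polar O r θ := by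
  have h := polar_add O r θ 1
  simpa using h

/-- PROOF. `φ i`, `R i`: for `i` choose `j ≠ i` (`2 ≤ n`) and take `edge_normal` for `ij`: the vertex `i` is
`polar O (ρ α) α` with `θ₀ - 2π < α < θ₀` (take `φ i = α + 2π`) or `polar O (ρ β) β` with
`θ₀ < β < θ₀ + 2π` (take `φ i = β`).  Now let `i ≠ j` and take `edge_normal` for `ij`, say `α` belongs to `j`
and `β` to `i` (or the other way round).  By `polar_inj` `β = φ i` (both in `(θ₀, θ₀ + 2π)`) and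
`α + 2π = φ j`, `ρ β = R i`, `ρ α = R j`; so `φ i = β < α + 2π = φ j`.  This gives `φ i ≠ φ j` in all cases, and
if `φ i < φ j` then `α` belongs to `j`. -/
theorem angles {n : ℕ} (hn : 2 ≤ n) (D : SimpleDrawing n) {O : ℂ} {θ₀ : ℝ}
    (h1 : ∀ i j, i ≠ j → IsPolarArc O (D.curve i j) (D.pt i) (D.pt j))
    (h2 : ∀ (i : Fin n) (r : ℝ), 0 ≤ r → polar O r θ₀ ≠ D.pt i)
    (h3 : ∀ i j, i ≠ j → ∃ r : ℝ, 0 ≤ r ∧ polar O r θ₀ ∈ D.curve i j) :
    ∃ (φ R : Fin n → ℝ), (∀ i, θ₀ < φ i ∧ φ i < θ₀ + 2 * Real.pi) ∧ (∀ i, 0 < R i) ∧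
      (∀ i, D.pt i = polar O (R i) (φ i)) ∧ Function.Injective φ ∧
      ∀ i j, φ i < φ j → ∃ ρ : ℝ → ℝ, ContinuousOn ρ (Icc (φ j - 2 * Real.pi) (φ i)) ∧
        (∀ θ ∈ Icc (φ j - 2 * Real.pi) (φ i), 0 < ρ θ) ∧
        D.curve i j = (fun θ => polar O (ρ θ) θ) '' Icc (φ j - 2 * Real.pi) (φ i) ∧
        ρ (φ j - 2 * Real.pi) = R j ∧ ρ (φ i) = R i := by
  have hpi := Real.pi_pos
  have hpt : ∀ i : Fin n, ∃ p : ℝ × ℝ, (θ₀ < p.1 ∧ p.1 < θ₀ + 2 * Real.pi) ∧ 0 < p.2 ∧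
      D.pt i = polar O p.2 p.1 := by
    intro i
    have : ∃ j : Fin n, j ≠ i := by
      haveI : Nontrivial (Fin n) := Fin.nontrivial_iff_two_le.2 hn
      exact exists_ne i
    obtain ⟨j, hj⟩ := this
    obtain ⟨α, β, ρ, ha, hb, hab, hc, hpos, he, hor⟩ :=
      edge_normal (h1 i j hj.symm) (h2 i) (h2 j) (h3 i j hj.symm)
    have hαβ : α ≤ β := (ha.trans hb).le
    rcases hor with ⟨h4, h5⟩ | ⟨h4, h5⟩
    · refine ⟨(α + 2 * Real.pi, ρ α), ⟨?_, ?_⟩, hpos α ⟨le_refl _, hαβ⟩, ?_⟩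
      · exact hb.trans hab
      · show α + 2 * Real.pi < θ₀ + 2 * Real.pi
        linarith
      · show D.pt i = polar O (ρ α) (α + 2 * Real.pi)
        rw [e3_shift, h4]
    · refine ⟨(β, ρ β), ⟨hb, ?_⟩, hpos β ⟨hαβ, le_refl _⟩, h5.symm⟩
      show β < θ₀ + 2 * Real.pi
      linarith
  choose p hp1 hp2 hp3 using hpt
  have key : ∀ i j : Fin n, i ≠ j → ∃ (α β : ℝ) (ρ : ℝ → ℝ), α < θ₀ ∧ θ₀ < β ∧
      β < α + 2 * Real.pi ∧ ContinuousOn ρ (Icc α β) ∧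
      (∀ θ ∈ Icc α β, 0 < ρ θ) ∧ D.curve i j = (fun θ => polar O (ρ θ) θ) '' Icc α β ∧
      (((p i).1 = α + 2 * Real.pi ∧ (p i).2 = ρ α ∧ (p j).1 = β ∧ (p j).2 = ρ β) ∨
        ((p j).1 = α + 2 * Real.pi ∧ (p j).2 = ρ α ∧ (p i).1 = β ∧ (p i).2 = ρ β)) := by
    intro i j hij
    obtain ⟨α, β, ρ, ha, hb, hab, hc, hpos, he, hor⟩ :=
      edge_normal (h1 i j hij) (h2 i) (h2 j) (h3 i j hij)
    have hαβ : α ≤ β := (ha.trans hb).le
    refine ⟨α, β, ρ, ha, hb, hab, hc, hpos, he, ?_⟩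
    have hl : ∀ k : Fin n, polar O (ρ α) α = D.pt k → (p k).1 = α + 2 * Real.pi ∧ (p k).2 = ρ α := by
      intro k hk
      have h6 : polar O (p k).2 (p k).1 = polar O (ρ α) (α + 2 * Real.pi) := by
        rw [e3_shift, hk, hp3 k]
      obtain ⟨h7, h8⟩ := e3_uniq (θ₀ := θ₀) (hp2 k) (hpos α ⟨le_refl _, hαβ⟩) (hp1 k).1 (hp1 k).2
        (hb.trans hab) (by linarith) h6
      exact ⟨h8, h7⟩
    have hr : ∀ k : Fin n, polar O (ρ β) β = D.pt k → (p k).1 = β ∧ (p k).2 = ρ β := by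
      intro k hk
      have h6 : polar O (p k).2 (p k).1 = polar O (ρ β) β := by
        rw [hk, hp3 k]
      obtain ⟨h7, h8⟩ := e3_uniq (θ₀ := θ₀) (hp2 k) (hpos β ⟨hαβ, le_refl _⟩) (hp1 k).1 (hp1 k).2
        hb (by linarith) h6
      exact ⟨h8, h7⟩
    rcases hor with ⟨h4, h5⟩ | ⟨h4, h5⟩
    · left
      exact ⟨(hl i h4).1, (hl i h4).2, (hr j h5).1, (hr j h5).2⟩
    · right
      exact ⟨(hl j h4).1, (hl j h4).2, (hr i h5).1, (hr i h5).2⟩
  refine ⟨fun i => (p i).1, fun i => (p i).2, hp1, hp2, hp3, ?_, ?_⟩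
  · intro i j hij
    by_contra hne
    have hij' : (p i).1 = (p j).1 := hij
    obtain ⟨α, β, ρ, ha, hb, hab, hc, hpos, he, hor⟩ := key i j hne
    rcases hor with ⟨h4, -, h5, -⟩ | ⟨h4, -, h5, -⟩
    · rw [h4, h5] at hij'
      linarith
    · rw [h4, h5] at hij'
      linarith
  · intro i j hij
    have hij' : (p i).1 < (p j).1 := hij
    have hne : i ≠ j := by
      rintro rfl
      exact lt_irrefl _ hij'
    obtain ⟨α, β, ρ, ha, hb, hab, hc, hpos, he, hor⟩ := key i j hne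
    rcases hor with ⟨h4, -, h5, -⟩ | ⟨h4, h6, h5, h7⟩
    · exfalso
      rw [h4, h5] at hij'
      linarith
    · have hα : (p j).1 - 2 * Real.pi = α := by
        rw [h4]
        ring
      refine ⟨ρ, ?_, ?_, ?_, ?_, ?_⟩
      · show ContinuousOn ρ (Icc ((p j).1 - 2 * Real.pi) (p i).1)
        rw [hα, h5]
        exact hc
      · show ∀ θ ∈ Icc ((p j).1 - 2 * Real.pi) (p i).1, 0 < ρ θ
        rw [hα, h5]
        exact hpos
      · show D.curve i j = (fun θ => polar O (ρ θ) θ) '' Icc ((p j).1 - 2 * Real.pi) (p i).1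
        rw [hα, h5]
        exact he
      · show ρ ((p j).1 - 2 * Real.pi) = (p j).2
        rw [hα, h6]
      · show ρ (p i).1 = (p i).2
        rw [h5, h7]

end H5GT
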